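import Mathlib

set_option autoImplicit false
set_option linter.unusedSectionVars false

/-!
# Poisson kernels at the points `1 - 2 ^ (-(n+1))` and bounded analytic boundary functions
-/

namespace Pool.Agent.H261.AS

open MeasureTheory AddCircle Filter Topology
open scoped ENNReal ComplexConjugate

/-- the coordinate function -/
noncomputable def zz (t : UnitAddCircle) : ℂ := fourier 1 t

lemma continuous_zz : Continuous zz := (fourier (T := 1) 1).continuous

lemma norm_zz (t : UnitAddCircle) : ‖zz t‖ = 1 := by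
  unfold zz; rw [fourier_apply]; exact Circle.norm_coe _

lemma zz_ne (t : UnitAddCircle) : zz t ≠ 0 := by
  intro h
  have := norm_zz t
  rw [h, norm_zero] at this
  exact zero_ne_one this

lemma fourier_nat (n : ℕ) (t : UnitAddCircle) : fourier (n : ℤ) t = zz t ^ n := by
  induction n with
  | zero => simp
  | succ n ih =>
    have : ((n + 1 : ℕ) : ℤ) = (n : ℤ) + 1 := by push_cast; ring
    rw [this, fourier_add, ih, pow_succ]
    rfl

lemma vol_real_univ : (volume : Measure UnitAddCircle).real Set.univ = 1 := by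
  rw [measureReal_def, UnitAddCircle.measure_univ]; rfl

/-- the points -/
noncomputable def ww (n : ℕ) : ℝ := 1 - (1 / 2) ^ (n + 1)

lemma ww_lt (n : ℕ) : ww n < 1 := by unfold ww; linarith [pow_pos (by norm_num : (0:ℝ) < 1/2) (n+1)]

lemma ww_ge (n : ℕ) : 1 / 2 ≤ ww n := by
  unfold ww
  have : (1 / 2 : ℝ) ^ (n + 1) ≤ 1 / 2 := by
    rw [pow_succ]
    have := pow_le_one₀ (n := n) (by norm_num : (0:ℝ) ≤ 1/2) (by norm_num)
    linarith
  linarith

lemma ww_pos (n : ℕ) : 0 < ww n := lt_of_lt_of_le (by norm_num) (ww_ge n)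

/-- the analytic kernel -/
noncomputable def KK (w : ℝ) (t : UnitAddCircle) : ℂ := zz t / (1 - w * zz t)

/-- the Poisson kernel -/
noncomputable def PP (w : ℝ) (t : UnitAddCircle) : ℝ := (1 - w ^ 2) / ‖zz t - w‖ ^ 2

section kernels

variable {w : ℝ} (hw0 : 0 < w) (hw1 : w < 1)

include hw0 hw1

lemma den_lower (t : UnitAddCircle) : 1 - w ≤ ‖zz t - w‖ := by
  have h := norm_sub_norm_le (zz t) (w : ℂ)
  rw [norm_zz, Complex.norm_real, Real.norm_eq_abs, abs_of_pos hw0] at h
  exact h

lemma den_pos (t : UnitAddCircle) : 0 < ‖zz t - w‖ :=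
  lt_of_lt_of_le (by linarith) (den_lower hw0 hw1 t)

lemma den2_lower (t : UnitAddCircle) : 1 - w ≤ ‖1 - w * zz t‖ := by
  have h := norm_sub_norm_le (1 : ℂ) (w * zz t)
  rw [norm_mul, norm_zz, Complex.norm_real, Real.norm_eq_abs, abs_of_pos hw0, norm_one,
    mul_one] at h
  exact h

lemma den2_ne (t : UnitAddCircle) : (1 : ℂ) - w * zz t ≠ 0 := by
  intro h
  have := den2_lower hw0 hw1 t
  rw [h, norm_zero] at this
  linarith

lemma PP_nonneg (t : UnitAddCircle) : 0 ≤ PP w t := by
  unfold PP
  have : 0 ≤ 1 - w ^ 2 := by nlinarith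
  positivity

lemma continuous_PP : Continuous (PP w) := by
  unfold PP
  refine Continuous.div continuous_const ((continuous_zz.sub continuous_const).norm.pow 2) ?_
  intro t
  have := den_pos hw0 hw1 t
  positivity

lemma continuous_KK : Continuous (KK w) := by
  unfold KK
  exact Continuous.div continuous_zz (continuous_const.sub (continuous_const.mul continuous_zz))
    (den2_ne hw0 hw1)

omit hw0 hw1 in
lemma zz_conj' (t : UnitAddCircle) : zz t * conj (zz t) = 1 := by
  rw [Complex.mul_conj, Complex.normSq_eq_norm_sq, norm_zz]; simp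

lemma sub_mul_PP (t : UnitAddCircle) :
    (zz t - w) * (PP w t : ℂ) = (1 - (w : ℂ) ^ 2) * KK w t := by
  have h1 : ((‖zz t - w‖ ^ 2 : ℝ) : ℂ) = (zz t - w) * (conj (zz t) - w) := by
    rw [← Complex.normSq_eq_norm_sq, ← Complex.mul_conj, map_sub, Complex.conj_ofReal]
  have h2 := den_pos hw0 hw1 t
  have h3 : zz t - (w : ℂ) ≠ 0 := norm_pos_iff.1 h2
  have h4 : conj (zz t) - (w : ℂ) ≠ 0 := by
    intro h
    apply h3
    have := congrArg conj h
    simpa [map_sub] using this
  have h5 := den2_ne hw0 hw1 t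
  have h6 := zz_conj' t
  unfold PP KK
  rw [Complex.ofReal_div, h1]
  push_cast
  rw [mul_div_assoc', mul_div_assoc', div_eq_div_iff (mul_ne_zero h3 h4) h5]
  linear_combination (-(zz t - (w:ℂ)) * (1 - (w:ℂ)^2)) * h6

lemma PP_eq (t : UnitAddCircle) :
    (PP w t : ℂ) = 1 + w * KK w t + w * conj (KK w t) := by
  have h1 : ((‖zz t - w‖ ^ 2 : ℝ) : ℂ) = (zz t - w) * (conj (zz t) - w) := by
    rw [← Complex.normSq_eq_norm_sq, ← Complex.mul_conj, map_sub, Complex.conj_ofReal]
  have h2 := den_pos hw0 hw1 t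
  have h3 : zz t - (w : ℂ) ≠ 0 := norm_pos_iff.1 h2
  have h4 : conj (zz t) - (w : ℂ) ≠ 0 := by
    intro h
    apply h3
    have := congrArg conj h
    simpa [map_sub] using this
  have h5 := den2_ne hw0 hw1 t
  have h5' : (1 : ℂ) - w * conj (zz t) ≠ 0 := by
    intro h
    apply h5
    have := congrArg conj h
    simpa [map_sub] using this
  have h6 := zz_conj' t
  unfold PP KK
  rw [Complex.ofReal_div, h1, map_div₀, map_sub, map_mul, Complex.conj_ofReal, map_one]
  have h7 : (zz t - (w : ℂ)) * (conj (zz t) - w) = (1 - w * zz t) * (1 - w * conj (zz t)) := by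
    linear_combination (1 - (w:ℂ)^2) * h6
  rw [h7]
  push_cast
  field_simp
  linear_combination ((w:ℂ)^2) * h6

end kernels

/-- the integral against a continuous function is defined for bounded functions -/
lemma integrable_bdd {h : UnitAddCircle → ℂ} (hm : AEStronglyMeasurable h volume) {C : ℝ}
    (hb : ∀ᵐ t, ‖h t‖ ≤ C) : Integrable h (volume : Measure UnitAddCircle) :=
  Integrable.of_bound hm C hb

lemma integrable_mul_cont {h : UnitAddCircle → ℂ} (hm : AEStronglyMeasurable h volume) {C : ℝ}
    (hb : ∀ᵐ t, ‖h t‖ ≤ C) {g : UnitAddCircle → ℂ} (hg : Continuous g) :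
    Integrable (fun t => h t * g t) (volume : Measure UnitAddCircle) := by
  obtain ⟨D, hD⟩ := (isCompact_univ (X := UnitAddCircle)).exists_bound_of_continuousOn
    hg.continuousOn
  refine Integrable.of_bound (hm.mul hg.aestronglyMeasurable) (C * D) ?_
  filter_upwards [hb] with t ht
  rw [norm_mul]
  exact mul_le_mul ht (hD t (Set.mem_univ t)) (norm_nonneg _) ((norm_nonneg _).trans ht)

/-- a bounded function whose integrals against the positive frequencies vanish is orthogonal to
the analytic kernel -/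
lemma int_KK {w : ℝ} (hw0 : 0 < w) (hw1 : w < 1) {h : UnitAddCircle → ℂ}
    (hm : AEStronglyMeasurable h volume) {C : ℝ} (hb : ∀ᵐ t, ‖h t‖ ≤ C)
    (h0 : ∀ n : ℕ, ∫ t, h t * zz t ^ (n + 1) = 0) : ∫ t, h t * KK w t = 0 := by
  have key : ∀ N : ℕ, ‖∫ t, h t * KK w t‖ ≤ C / (1 - w) * w ^ N := by
    intro N
    have e1 : ∀ t, KK w t - ∑ j ∈ Finset.range N, (w : ℂ) ^ j * zz t ^ (j + 1) =
        (w : ℂ) ^ N * zz t ^ (N + 1) / (1 - w * zz t) := by
      intro t
      have h5 := den2_ne hw0 hw1 t
      have h6 : ∑ j ∈ Finset.range N, (w : ℂ) ^ j * zz t ^ (j + 1) =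
          zz t * ∑ j ∈ Finset.range N, (w * zz t) ^ j := by
        rw [Finset.mul_sum]
        refine Finset.sum_congr rfl fun j _ => ?_
        rw [mul_pow, pow_succ]; ring
      have h7 := mul_neg_geom_sum ((w : ℂ) * zz t) N
      rw [h6]
      unfold KK
      rw [eq_div_iff h5, sub_mul, div_mul_cancel₀ _ h5]
      rw [mul_pow] at h7
      linear_combination (-(zz t)) * h7
    have e2 : ∫ t, h t * (∑ j ∈ Finset.range N, (w : ℂ) ^ j * zz t ^ (j + 1)) = 0 := by
      have : (fun t => h t * (∑ j ∈ Finset.range N, (w : ℂ) ^ j * zz t ^ (j + 1))) =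
          fun t => ∑ j ∈ Finset.range N, (w : ℂ) ^ j * (h t * zz t ^ (j + 1)) := by
        funext t
        rw [Finset.mul_sum]
        refine Finset.sum_congr rfl fun j _ => ?_
        ring
      rw [this, integral_finsetSum]
      · refine Finset.sum_eq_zero fun j _ => ?_
        rw [integral_const_mul, h0 j, mul_zero]
      · intro j _
        exact (integrable_mul_cont hm hb (continuous_zz.pow (j + 1))).const_mul _
    have e3 : ∫ t, h t * KK w t = ∫ t, h t * ((w : ℂ) ^ N * zz t ^ (N + 1) / (1 - w * zz t)) := by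
      have hi1 : Integrable (fun t => h t * KK w t) (volume : Measure UnitAddCircle) :=
        integrable_mul_cont hm hb (continuous_KK hw0 hw1)
      have hi2 : Integrable (fun t => h t *
          (∑ j ∈ Finset.range N, (w : ℂ) ^ j * zz t ^ (j + 1))) (volume : Measure UnitAddCircle) :=
        integrable_mul_cont hm hb
          (continuous_finsetSum _ fun j _ => continuous_const.mul (continuous_zz.pow (j + 1)))
      rw [← sub_zero (∫ t, h t * KK w t), ← e2, ← integral_sub hi1 hi2]
      refine integral_congr_ae (Eventually.of_forall fun t => ?_)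
      show h t * KK w t - h t * _ = _
      rw [← mul_sub, e1 t]
    rw [e3]
    have e4 := norm_integral_le_of_norm_le_const (μ := (volume : Measure UnitAddCircle))
      (f := fun t => h t * ((w : ℂ) ^ N * zz t ^ (N + 1) / (1 - w * zz t)))
      (C := C / (1 - w) * w ^ N) (by
        filter_upwards [hb] with t ht
        have h5 := den2_lower hw0 hw1 t
        have hw : 0 < 1 - w := by linarith
        rw [norm_mul, norm_div, norm_mul, norm_pow, norm_pow, norm_zz, one_pow, mul_one,
          Complex.norm_real, Real.norm_eq_abs, abs_of_pos hw0]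
        have h8 : w ^ N / ‖1 - w * zz t‖ ≤ w ^ N / (1 - w) :=
          div_le_div_of_nonneg_left (by positivity) hw h5
        calc ‖h t‖ * (w ^ N / ‖1 - w * zz t‖) ≤ C * (w ^ N / (1 - w)) :=
              mul_le_mul ht h8 (by positivity) ((norm_nonneg _).trans ht)
          _ = C / (1 - w) * w ^ N := by ring)
    rwa [vol_real_univ, mul_one] at e4
  have hlim : Tendsto (fun N : ℕ => C / (1 - w) * w ^ N) atTop (𝓝 0) := by
    have := (tendsto_pow_atTop_nhds_zero_of_lt_one hw0.le hw1).const_mul (C / (1 - w))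
    simpa using this
  exact norm_le_zero_iff.1 (ge_of_tendsto' hlim key)

lemma int_zz_pow (n : ℕ) : ∫ t : UnitAddCircle, zz t ^ (n + 1) = 0 := by
  have h1 : fourierCoeff (T := 1) (fourier ((n + 1 : ℕ) : ℤ)) 0 = 0 := by
    rw [fourierCoeff_fourier]
    rw [Pi.single_apply, if_neg]
    push_cast
    omega
  unfold fourierCoeff at h1
  rw [integral_haarAddCircle] at h1
  simp only [neg_zero, fourier_zero, smul_eq_mul, one_mul, inv_one, one_smul] at h1
  rw [← h1]
  refine integral_congr_ae (Eventually.of_forall fun t => ?_)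
  exact (fourier_nat (n + 1) t).symm

lemma int_KK_one {w : ℝ} (hw0 : 0 < w) (hw1 : w < 1) : ∫ t : UnitAddCircle, KK w t = 0 := by
  have := int_KK (w := w) hw0 hw1 (h := fun _ => 1) aestronglyMeasurable_const (C := 1)
    (Eventually.of_forall fun t => by simp) (fun n => by simpa using int_zz_pow n)
  simpa using this

lemma int_PP {w : ℝ} (hw0 : 0 < w) (hw1 : w < 1) : ∫ t : UnitAddCircle, PP w t = 1 := by
  have h1 : ∫ t : UnitAddCircle, ((PP w t : ℝ) : ℂ) = 1 := by
    have hi : Integrable (KK w) (volume : Measure UnitAddCircle) :=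
      (continuous_KK hw0 hw1).integrable_of_hasCompactSupport (HasCompactSupport.of_compactSpace _)
    have hic : Integrable (fun t => conj (KK w t)) (volume : Measure UnitAddCircle) :=
      (Complex.continuous_conj.comp
        (continuous_KK hw0 hw1)).integrable_of_hasCompactSupport (HasCompactSupport.of_compactSpace _)
    have e : (fun t : UnitAddCircle => ((PP w t : ℝ) : ℂ)) =
        fun t => (1 + w * KK w t) + w * conj (KK w t) := by
      funext t; exact PP_eq hw0 hw1 t
    have i1 : Integrable (fun _ : UnitAddCircle => (1 : ℂ)) volume := integrable_const _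
    have i2 : Integrable (fun t : UnitAddCircle => (w : ℂ) * KK w t) volume := hi.const_mul _
    have i3 : Integrable (fun t : UnitAddCircle => (w : ℂ) * conj (KK w t)) volume :=
      hic.const_mul _
    have i4 : Integrable (fun t : UnitAddCircle => 1 + (w : ℂ) * KK w t) volume := i1.add i2
    rw [e, integral_add i4 i3, integral_add i1 i2, integral_const_mul, integral_const_mul,
      integral_conj, int_KK_one hw0 hw1, integral_const, vol_real_univ]
    simp
  rw [integral_complex_ofReal] at h1
  exact_mod_cast h1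

/-- multiplication by the coordinate -/
lemma int_mul_PP {w : ℝ} (hw0 : 0 < w) (hw1 : w < 1) {h : UnitAddCircle → ℂ}
    (hm : AEStronglyMeasurable h volume) {C : ℝ} (hb : ∀ᵐ t, ‖h t‖ ≤ C)
    (h0 : ∀ n : ℕ, ∫ t, h t * zz t ^ (n + 1) = 0) :
    ∫ t, (h t * zz t) * (PP w t : ℂ) = w * ∫ t, h t * (PP w t : ℂ) := by
  have hP : Continuous (fun t => (PP w t : ℂ)) :=
    Complex.continuous_ofReal.comp (continuous_PP hw0 hw1)
  have hi1 : Integrable (fun t => h t * (PP w t : ℂ)) (volume : Measure UnitAddCircle) :=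
    integrable_mul_cont hm hb hP
  have hi2 : Integrable (fun t => (h t * zz t) * (PP w t : ℂ))
      (volume : Measure UnitAddCircle) := by
    have := integrable_mul_cont hm hb (g := fun t => zz t * (PP w t : ℂ)) (continuous_zz.mul hP)
    refine this.congr (Eventually.of_forall fun t => ?_)
    simp only [mul_assoc]
  rw [← sub_eq_zero, ← integral_const_mul, ← integral_sub hi2 (hi1.const_mul _)]
  have e : (fun t => h t * zz t * (PP w t : ℂ) - w * (h t * (PP w t : ℂ))) =
      fun t => (1 - (w : ℂ) ^ 2) * (h t * KK w t) := by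
    funext t
    have := sub_mul_PP hw0 hw1 t
    linear_combination (h t) * this
  rw [e, integral_const_mul, int_KK hw0 hw1 hm hb h0, mul_zero]

lemma int_pow_mul_PP {w : ℝ} (hw0 : 0 < w) (hw1 : w < 1) {h : UnitAddCircle → ℂ}
    (hm : AEStronglyMeasurable h volume) {C : ℝ} (hb : ∀ᵐ t, ‖h t‖ ≤ C)
    (h0 : ∀ n : ℕ, ∫ t, h t * zz t ^ (n + 1) = 0) (j : ℕ) :
    ∫ t, (h t * zz t ^ j) * (PP w t : ℂ) = (w : ℂ) ^ j * ∫ t, h t * (PP w t : ℂ) := by
  induction j with
  | zero => simp
  | succ j ih =>
    have hm' : AEStronglyMeasurable (fun t => h t * zz t ^ j) volume :=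
      hm.mul (continuous_zz.pow j).aestronglyMeasurable
    have hb' : ∀ᵐ t, ‖h t * zz t ^ j‖ ≤ C := by
      filter_upwards [hb] with t ht
      rwa [norm_mul, norm_pow, norm_zz, one_pow, mul_one]
    have h0' : ∀ n : ℕ, ∫ t, (h t * zz t ^ j) * zz t ^ (n + 1) = 0 := by
      intro n
      rw [← h0 (j + n)]
      refine integral_congr_ae (Eventually.of_forall fun t => ?_)
      show h t * zz t ^ j * zz t ^ (n + 1) = h t * zz t ^ (j + n + 1)
      rw [mul_assoc, ← pow_add, add_assoc]
    have := int_mul_PP hw0 hw1 hm' hb' h0'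
    rw [ih] at this
    rw [pow_succ, mul_comm ((w : ℂ) ^ j) (w : ℂ), mul_assoc, ← this]
    refine integral_congr_ae (Eventually.of_forall fun t => ?_)
    show h t * zz t ^ (j + 1) * _ = h t * zz t ^ j * zz t * _
    rw [pow_succ]; ring

end Pool.Agent.H261.AS
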