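import Pool.Agent.H261.AS.Nu

set_option autoImplicit false
set_option linter.unusedSectionVars false

/-!
# Asymptotic multiplicativity of the Poisson integral on `H^∞ + C`
-/

namespace Pool.Agent.H261.AS

open MeasureTheory AddCircle Filter Topology
open scoped ENNReal ComplexConjugate

/-- bounded measurable functions -/
structure Bdd (f : UnitAddCircle → ℂ) (C : ℝ) : Prop where
  meas : AEStronglyMeasurable f (volume : Measure UnitAddCircle)
  bound : ∀ᵐ t, ‖f t‖ ≤ C

lemma Bdd.nonneg {f : UnitAddCircle → ℂ} {C : ℝ} (h : Bdd f C) : 0 ≤ C := by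
  obtain ⟨t, ht⟩ := h.bound.exists
  exact (norm_nonneg _).trans ht

lemma Bdd.mul {f g : UnitAddCircle → ℂ} {C D : ℝ} (hf : Bdd f C) (hg : Bdd g D) :
    Bdd (fun t => f t * g t) (C * D) := by
  refine ⟨hf.meas.mul hg.meas, ?_⟩
  filter_upwards [hf.bound, hg.bound] with t h1 h2
  rw [norm_mul]
  exact mul_le_mul h1 h2 (norm_nonneg _) hf.nonneg

lemma Bdd.add {f g : UnitAddCircle → ℂ} {C D : ℝ} (hf : Bdd f C) (hg : Bdd g D) :
    Bdd (fun t => f t + g t) (C + D) := by
  refine ⟨hf.meas.add hg.meas, ?_⟩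
  filter_upwards [hf.bound, hg.bound] with t h1 h2
  exact (norm_add_le _ _).trans (add_le_add h1 h2)

lemma Bdd.sub {f g : UnitAddCircle → ℂ} {C D : ℝ} (hf : Bdd f C) (hg : Bdd g D) :
    Bdd (fun t => f t - g t) (C + D) := by
  refine ⟨hf.meas.sub hg.meas, ?_⟩
  filter_upwards [hf.bound, hg.bound] with t h1 h2
  exact (norm_sub_le _ _).trans (add_le_add h1 h2)

lemma Bdd.const (c : ℂ) : Bdd (fun _ => c) ‖c‖ :=
  ⟨aestronglyMeasurable_const, Eventually.of_forall fun _ => le_rfl⟩

lemma Bdd.cont (c : C(UnitAddCircle, ℂ)) : Bdd c ‖c‖ :=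
  ⟨c.continuous.aestronglyMeasurable, Eventually.of_forall fun t => c.norm_coe_le_norm t⟩

lemma Bdd.integrable {f : UnitAddCircle → ℂ} {C : ℝ} (h : Bdd f C) (n : ℕ) :
    Integrable f (nu n) :=
  Integrable.of_bound (h.meas.mono_ac (nu_ac n)) C ((nu_ac n).ae_le h.bound)

lemma Bdd.norm_int_le {f : UnitAddCircle → ℂ} {C : ℝ} (h : Bdd f C) (n : ℕ) :
    ‖∫ t, f t ∂nu n‖ ≤ C := by
  have := norm_integral_le_of_norm_le_const (μ := nu n) ((nu_ac n).ae_le h.bound)
  simpa using this

/-- a continuous function is almost constant for the Poisson measures -/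
lemma tendsto_cont (c : C(UnitAddCircle, ℂ)) :
    Tendsto (fun n => ∫ t, ‖c t - c 0‖ ∂nu n) atTop (𝓝 0) := by
  rw [Metric.tendsto_atTop']
  intro ε hε
  have hc := c.continuous.continuousAt (x := 0)
  rw [Metric.continuousAt_iff] at hc
  obtain ⟨δ, hδ, hcδ⟩ := hc (ε / 2) (half_pos hε)
  obtain ⟨η, hη, hfar⟩ := zz_far hδ
  have hC : ∀ t, ‖c t - c 0‖ ≤ 2 * ‖c‖ := fun t => by
    refine (norm_sub_le _ _).trans ?_
    have h1 := c.norm_coe_le_norm t
    have h2 := c.norm_coe_le_norm 0
    linarith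
  have hpos : 0 < 2 * ‖c‖ + 1 := by positivity
  obtain ⟨N, hN⟩ := (Metric.tendsto_atTop.1 (tendsto_nu_far hη)) (ε / 2 / (2 * ‖c‖ + 1))
    (by positivity)
  refine ⟨N, fun n hn => ?_⟩
  have h1 := hN n hn.le
  rw [Real.dist_eq, sub_zero, abs_of_nonneg measureReal_nonneg] at h1
  have hS : MeasurableSet {t | η ≤ ‖zz t - 1‖} :=
    (isClosed_le continuous_const (continuous_zz.sub continuous_const).norm).measurableSet
  have h2 : ∀ t, ‖c t - c 0‖ ≤ ε / 2 +
      Set.indicator {t | η ≤ ‖zz t - 1‖} (fun _ => 2 * ‖c‖) t := by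
    intro t
    by_cases ht : t ∈ {t | η ≤ ‖zz t - 1‖}
    · rw [Set.indicator_of_mem ht]
      have := hC t
      linarith
    · rw [Set.indicator_of_notMem ht, add_zero]
      have h3 : ‖t‖ < δ := by
        by_contra h4
        push Not at h4
        exact ht (hfar t h4)
      have := hcδ (x := t) (by rwa [dist_zero_right])
      rw [dist_eq_norm] at this
      exact this.le
  rw [Real.dist_eq, sub_zero, abs_of_nonneg (integral_nonneg fun t => norm_nonneg _)]
  have hcc : Continuous fun t => ‖c t - c 0‖ := (c.continuous.sub continuous_const).norm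
  calc ∫ t, ‖c t - c 0‖ ∂nu n
      ≤ ∫ t, (ε / 2 + Set.indicator {t | η ≤ ‖zz t - 1‖} (fun _ => 2 * ‖c‖) t) ∂nu n := by
        refine integral_mono ?_ ?_ h2
        · exact Integrable.of_bound hcc.aestronglyMeasurable (2 * ‖c‖)
            (Eventually.of_forall fun t => by simpa using hC t)
        · exact (integrable_const _).add ((integrable_const _).indicator hS)
    _ = ε / 2 + 2 * ‖c‖ * (nu n).real {t | η ≤ ‖zz t - 1‖} := by
        rw [integral_add (integrable_const _) ((integrable_const _).indicator hS),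
          integral_indicator hS, setIntegral_const, integral_const]
        simp [mul_comm]
    _ < ε := by
        have h5 : 2 * ‖c‖ * (nu n).real {t | η ≤ ‖zz t - 1‖} < ε / 2 := by
          calc 2 * ‖c‖ * (nu n).real {t | η ≤ ‖zz t - 1‖}
              ≤ (2 * ‖c‖ + 1) * (nu n).real {t | η ≤ ‖zz t - 1‖} := by
                have := measureReal_nonneg (μ := nu n) (s := {t | η ≤ ‖zz t - 1‖})
                nlinarith
            _ < (2 * ‖c‖ + 1) * (ε / 2 / (2 * ‖c‖ + 1)) := by
                exact mul_lt_mul_of_pos_left h1 hpos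
            _ = ε / 2 := by field_simp
        linarith

lemma tendsto_cont_mul (c : C(UnitAddCircle, ℂ)) {u : UnitAddCircle → ℂ} {C : ℝ} (hu : Bdd u C) :
    Tendsto (fun n => ∫ t, c t * u t ∂nu n - c 0 * ∫ t, u t ∂nu n) atTop (𝓝 0) := by
  have h1 : Tendsto (fun n => C * ∫ t, ‖c t - c 0‖ ∂nu n) atTop (𝓝 0) := by
    simpa using (tendsto_cont c).const_mul C
  refine squeeze_zero_norm (fun n => ?_) h1
  have hcu := ((Bdd.cont c).mul hu).integrable n
  rw [← integral_const_mul, ← integral_sub hcu ((hu.integrable n).const_mul _),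
    ← integral_const_mul]
  refine norm_integral_le_of_norm_le ?_ ?_
  · have hcc : Continuous fun t => ‖c t - c 0‖ := (c.continuous.sub continuous_const).norm
    refine Integrable.const_mul ?_ _
    refine Integrable.of_bound hcc.aestronglyMeasurable (2 * ‖c‖)
      (Eventually.of_forall fun t => ?_)
    rw [norm_norm]
    refine (norm_sub_le _ _).trans ?_
    have h1 := c.norm_coe_le_norm t
    have h2 := c.norm_coe_le_norm 0
    linarith
  · filter_upwards [(nu_ac n).ae_le hu.bound] with t ht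
    rw [← sub_mul, norm_mul, mul_comm]
    exact mul_le_mul_of_nonneg_right ht (norm_nonneg _)

lemma tendsto_c (c : C(UnitAddCircle, ℂ)) :
    Tendsto (fun n => ∫ t, c t ∂nu n - c 0) atTop (𝓝 0) := by
  have := tendsto_cont_mul c (Bdd.const 1)
  simpa using this

/-- asymptotic multiplicativity on `H^∞ + C` -/
lemma asymp {h1 h2 : UnitAddCircle → ℂ} {C1 C2 : ℝ} (b1 : Bdd h1 C1) (b2 : Bdd h2 C2)
    (n1 : ∀ n : ℤ, n < 0 → fourierCoeff h1 n = 0) (n2 : ∀ n : ℤ, n < 0 → fourierCoeff h2 n = 0)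
    (c1 c2 : C(UnitAddCircle, ℂ)) :
    Tendsto (fun n => ∫ t, (h1 t + c1 t) * (h2 t + c2 t) ∂nu n -
      (∫ t, (h1 t + c1 t) ∂nu n) * (∫ t, (h2 t + c2 t) ∂nu n)) atTop (𝓝 0) := by
  have k1 := Bdd.cont c1
  have k2 := Bdd.cont c2
  have bdd : ∀ {f : UnitAddCircle → ℂ} {C : ℝ}, Bdd f C →
      IsBoundedUnder (· ≤ ·) atTop ((‖·‖) ∘ fun n => ∫ t, f t ∂nu n) := by
    intro f C hf
    exact isBoundedUnder_of ⟨C, fun n => hf.norm_int_le n⟩
  have t1 := tendsto_cont_mul c2 b1
  have t2 := tendsto_cont_mul c1 b2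
  have t3 := tendsto_cont_mul c1 k2
  have t4 := (tendsto_c c2).zero_mul_isBoundedUnder_le (bdd b1)
  have t5 := (tendsto_c c1).zero_mul_isBoundedUnder_le (bdd b2)
  have t6 := (tendsto_c c1).zero_mul_isBoundedUnder_le (bdd k2)
  have t := ((t1.add t2).add t3).sub ((t4.add t5).add t6)
  simp only [add_zero, sub_zero] at t
  refine t.congr fun n => ?_
  have m0 : ∫ t, h1 t * h2 t ∂nu n = (∫ t, h1 t ∂nu n) * ∫ t, h2 t ∂nu n := by
    rw [int_nu, int_nu, int_nu]
    exact mul_int (ww_pos n) (ww_lt n) b1.meas b1.bound n1 b2.meas b2.bound n2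
  have e1 : ∫ t, (h1 t + c1 t) * (h2 t + c2 t) ∂nu n =
      ∫ t, h1 t * h2 t ∂nu n + ∫ t, c2 t * h1 t ∂nu n + ∫ t, c1 t * h2 t ∂nu n +
        ∫ t, c1 t * c2 t ∂nu n := by
    have i1 := (b1.mul b2).integrable n
    have i2 := (k2.mul b1).integrable n
    have i3 := (k1.mul b2).integrable n
    have i4 := (k1.mul k2).integrable n
    have i12 : Integrable (fun t => h1 t * h2 t + c2 t * h1 t) (nu n) := i1.add i2
    have i123 : Integrable (fun t => h1 t * h2 t + c2 t * h1 t + c1 t * h2 t) (nu n) := i12.add i3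
    rw [← integral_add i1 i2, ← integral_add i12 i3, ← integral_add i123 i4]
    refine integral_congr_ae (Eventually.of_forall fun t => ?_)
    show (h1 t + c1 t) * (h2 t + c2 t) = _
    ring
  rw [e1, integral_add (b1.integrable n) (k1.integrable n),
    integral_add (b2.integrable n) (k2.integrable n), m0]
  ring

end Pool.Agent.H261.AS
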