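import Pool.Agent.H261.AS.Asym

set_option autoImplicit false
set_option linter.unusedSectionVars false

/-!
# Characters of `L^∞` of the circle
-/

namespace Pool.Agent.H261.AS

open MeasureTheory AddCircle Filter Topology
open scoped ENNReal ComplexConjugate

/-- the space `L^∞` -/
abbrev LL : Type := Lp ℂ ⊤ (volume : Measure UnitAddCircle)

lemma bddL (u : LL) : Bdd u ‖u‖ := by
  refine ⟨Lp.aestronglyMeasurable u, ?_⟩
  have h := ae_le_eLpNormEssSup (f := (u : UnitAddCircle → ℂ)) (μ := volume)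
  filter_upwards [h] with t ht
  rw [Lp.norm_def, eLpNorm_exponent_top]
  have hfin : eLpNormEssSup (u : UnitAddCircle → ℂ) volume ≠ ⊤ := by
    have := Lp.eLpNorm_ne_top u
    rwa [eLpNorm_exponent_top] at this
  have := ENNReal.toReal_mono hfin ht
  simpa using this

lemma exL {f : UnitAddCircle → ℂ} {C : ℝ} (h : Bdd f C) : ∃ u : LL, ⇑u =ᵐ[volume] f :=
  ⟨(memLp_top_of_bound h.meas C h.bound).toLp f, MemLp.coeFn_toLp _⟩

/-- characters of `L^∞` -/
def IsChar (φ : LL → ℂ) : Prop :=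
  (∀ (a : ℂ) (f g : LL), φ (a • f + g) = a * φ f + φ g) ∧
  (∀ f g k : LL, (k : UnitAddCircle → ℂ) =ᵐ[volume]
    (fun t => (f : UnitAddCircle → ℂ) t * (g : UnitAddCircle → ℂ) t) → φ k = φ f * φ g) ∧
  (∀ e : LL, (e : UnitAddCircle → ℂ) =ᵐ[volume] (fun _ => (1:ℂ)) → φ e = 1)

lemma IsChar.zero {φ : LL → ℂ} (h : IsChar φ) : φ 0 = 0 := by
  have := h.1 1 0 0
  simp only [smul_zero, add_zero, one_mul] at this
  exact (left_eq_add.1 this)

lemma IsChar.add {φ : LL → ℂ} (h : IsChar φ) (f g : LL) : φ (f + g) = φ f + φ g := by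
  have := h.1 1 f g
  simpa using this

lemma IsChar.smul {φ : LL → ℂ} (h : IsChar φ) (a : ℂ) (f : LL) : φ (a • f) = a * φ f := by
  have := h.1 a f 0
  simpa [h.zero] using this

lemma IsChar.sub {φ : LL → ℂ} (h : IsChar φ) (f g : LL) : φ (f - g) = φ f - φ g := by
  have h1 := h.add (f - g) g
  rw [sub_add_cancel] at h1
  rw [h1]; ring

lemma IsChar.norm_le {φ : LL → ℂ} (h : IsChar φ) {f : LL} {C : ℝ} (hf : ∀ᵐ t, ‖f t‖ ≤ C) :
    ‖φ f‖ ≤ C := by
  by_contra hlt
  push Not at hlt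
  obtain ⟨e, he⟩ := exL (Bdd.const 1)
  have he1 := h.2.2 e he
  set c := φ f with hc
  have hb : Bdd (fun t => (f t - c)⁻¹) (‖c‖ - C)⁻¹ := by
    refine ⟨?_, ?_⟩
    · exact ((Lp.aestronglyMeasurable f).sub aestronglyMeasurable_const).aemeasurable.inv.aestronglyMeasurable
    · filter_upwards [hf] with t ht
      rw [norm_inv]
      have h1 : ‖c‖ - C ≤ ‖f t - c‖ := by
        have := norm_sub_norm_le c (f t)
        rw [norm_sub_rev] at this
        linarith
      exact inv_anti₀ (by linarith) h1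
  obtain ⟨g, hg⟩ := exL hb
  have h2 := h.2.1 (f - c • e) g e (by
    filter_upwards [he, hg, hf, Lp.coeFn_sub f (c • e), Lp.coeFn_smul c e] with t h1 h2 h3 h4 h5
    rw [h1, h2, h4, Pi.sub_apply, h5, Pi.smul_apply, h1, smul_eq_mul, mul_one]
    have h6 : f t - c ≠ 0 := by
      intro h7
      rw [sub_eq_zero] at h7
      rw [h7] at h3
      linarith
    rw [mul_inv_cancel₀ h6])
  rw [h.sub, h.smul, he1, mul_one, sub_self, zero_mul] at h2
  exact one_ne_zero h2

/-- indicator functions -/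
noncomputable def ind (F : Set UnitAddCircle) (hF : MeasurableSet F) : LL :=
  indicatorConstLp ⊤ hF (measure_ne_top _ _) (1 : ℂ)

lemma coe_ind (F : Set UnitAddCircle) (hF : MeasurableSet F) :
    ⇑(ind F hF) =ᵐ[volume] F.indicator fun _ => (1 : ℂ) := indicatorConstLp_coeFn

lemma IsChar.ind_sq {φ : LL → ℂ} (h : IsChar φ) (F : Set UnitAddCircle) (hF : MeasurableSet F) :
    φ (ind F hF) = φ (ind F hF) * φ (ind F hF) := by
  apply h.2.1
  filter_upwards [coe_ind F hF] with t ht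
  rw [ht]
  by_cases hm : t ∈ F
  · rw [Set.indicator_of_mem hm]; simp
  · rw [Set.indicator_of_notMem hm]; simp

lemma IsChar.ind_eq {φ : LL → ℂ} (h : IsChar φ) (F : Set UnitAddCircle) (hF : MeasurableSet F) :
    φ (ind F hF) = 0 ∨ φ (ind F hF) = 1 := by
  have := h.ind_sq F hF
  by_cases h0 : φ (ind F hF) = 0
  · exact Or.inl h0
  · right
    exact (mul_left_cancel₀ h0 (by rw [mul_one]; exact this)).symm

/-- the limit along an ultrafilter is a character -/
lemma exChar (W : Ultrafilter UnitAddCircle) (hW : (W : Filter UnitAddCircle) ≤ ae volume) :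
    ∃ φ : LL → ℂ, IsChar φ ∧ ∀ f : LL, Tendsto f W (𝓝 (φ f)) := by
  have hex : ∀ f : LL, ∃ l : ℂ, Tendsto f W (𝓝 l) := by
    intro f
    obtain ⟨l, -, hl⟩ := (isCompact_closedBall (0 : ℂ) ‖f‖).ultrafilter_le_nhds (W.map f) (by
      rw [le_principal_iff]
      have h1 : {t | ‖f t‖ ≤ ‖f‖} ∈ (W : Filter UnitAddCircle) := hW (bddL f).bound
      show f ⁻¹' _ ∈ (W : Filter UnitAddCircle)
      filter_upwards [h1] with t ht
      rw [Set.mem_preimage, mem_closedBall_zero_iff]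
      exact ht)
    exact ⟨l, hl⟩
  choose φ hφ using hex
  refine ⟨φ, ⟨?_, ?_, ?_⟩, hφ⟩
  · intro a f g
    refine tendsto_nhds_unique (hφ _) ?_
    have h1 : Tendsto (fun t => a * f t + g t) W (𝓝 (a * φ f + φ g)) :=
      ((hφ f).const_mul a).add (hφ g)
    refine h1.congr' ?_
    refine hW ?_
    filter_upwards [Lp.coeFn_add (a • f) g, Lp.coeFn_smul a f] with t h2 h3
    rw [h2, Pi.add_apply, h3, Pi.smul_apply, smul_eq_mul]
  · intro f g k hk
    refine tendsto_nhds_unique (hφ _) ?_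
    have h1 : Tendsto (fun t => f t * g t) W (𝓝 (φ f * φ g)) := (hφ f).mul (hφ g)
    refine h1.congr' (hW ?_)
    filter_upwards [hk] with t ht
    exact ht.symm
  · intro e he
    refine tendsto_nhds_unique (hφ _) ?_
    have h1 : Tendsto (fun _ : UnitAddCircle => (1 : ℂ)) W (𝓝 1) := tendsto_const_nhds
    refine h1.congr' (hW ?_)
    filter_upwards [he] with t ht
    exact ht.symm

/-- the mass of a set for the Poisson measure -/
noncomputable def mm (F : Set UnitAddCircle) (a : ℤ) : ℝ := (nu a.toNat).real F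

lemma exUltra (p : Ultrafilter ℤ) (F : Set UnitAddCircle) (hF : MeasurableSet F)
    (h : ¬ Tendsto (mm F) p (𝓝 0)) :
    ∃ W : Ultrafilter UnitAddCircle, (W : Filter UnitAddCircle) ≤ ae volume ∧ F ∈ W ∧
      ∀ G, MeasurableSet G → Tendsto (mm G) p (𝓝 0) → Gᶜ ∈ W := by
  set 𝒢 : Filter UnitAddCircle :=
    { sets := {B | ∃ G, MeasurableSet G ∧ Tendsto (mm G) p (𝓝 0) ∧ F ∩ Gᶜ ⊆ B}
      univ_sets := ⟨∅, MeasurableSet.empty, by
        have : mm ∅ = fun _ => (0 : ℝ) := by funext a; simp [mm]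
        rw [this]; exact tendsto_const_nhds, Set.subset_univ _⟩
      sets_of_superset := fun {A B} hA hAB => by
        obtain ⟨G, h1, h2, h3⟩ := hA
        exact ⟨G, h1, h2, h3.trans hAB⟩
      inter_sets := fun {A B} hA hB => by
        obtain ⟨G, h1, h2, h3⟩ := hA
        obtain ⟨G', h1', h2', h3'⟩ := hB
        refine ⟨G ∪ G', h1.union h1', ?_, ?_⟩
        · refine squeeze_zero (fun a => measureReal_nonneg) (fun a => ?_)
            (by simpa using h2.add h2')
          exact measureReal_union_le G G'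
        · rintro t ⟨ht1, ht2⟩
          rw [Set.compl_union] at ht2
          exact ⟨h3 ⟨ht1, ht2.1⟩, h3' ⟨ht1, ht2.2⟩⟩ } with hG
  have hmem : ∀ B, B ∈ 𝒢 ↔ ∃ G, MeasurableSet G ∧ Tendsto (mm G) p (𝓝 0) ∧ F ∩ Gᶜ ⊆ B :=
    fun B => Iff.rfl
  have hne : 𝒢.NeBot := by
    rw [neBot_iff]
    intro hbot
    obtain ⟨G, h1, h2, h3⟩ := (hmem ∅).1 (empty_mem_iff_bot.2 hbot)
    apply h
    refine squeeze_zero (fun a => measureReal_nonneg) (fun a => ?_) h2
    refine measureReal_mono ?_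
    intro t ht
    by_contra htG
    exact h3 ⟨ht, htG⟩
  refine ⟨Ultrafilter.of 𝒢, ?_, ?_, ?_⟩
  · refine (Ultrafilter.of_le 𝒢).trans ?_
    intro B hB
    rw [hmem]
    refine ⟨toMeasurable volume Bᶜ, measurableSet_toMeasurable _ _, ?_, ?_⟩
    · have h0 : volume (toMeasurable volume Bᶜ) = 0 := by
        rw [measure_toMeasurable]; exact hB
      have : mm (toMeasurable volume Bᶜ) = fun _ => (0 : ℝ) := by
        funext a
        unfold mm
        rw [measureReal_def, nu_ac _ h0]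
        rfl
      rw [this]; exact tendsto_const_nhds
    · rintro t ⟨-, ht⟩
      by_contra htB
      exact ht (subset_toMeasurable _ _ htB)
  · apply Ultrafilter.of_le 𝒢
    rw [hmem]
    exact ⟨∅, MeasurableSet.empty, by
        have : mm ∅ = fun _ => (0 : ℝ) := by funext a; simp [mm]
        rw [this]; exact tendsto_const_nhds, Set.inter_subset_left⟩
  · intro G hG1 hG2
    apply Ultrafilter.of_le 𝒢
    rw [hmem]
    exact ⟨G, hG1, hG2, Set.inter_subset_right⟩

/-- the characters carried by the limit of the Poisson measures along `p` -/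
def Sp (p : Ultrafilter ℤ) (φ : LL → ℂ) : Prop :=
  IsChar φ ∧ ∀ (G : Set UnitAddCircle) (hG : MeasurableSet G), Tendsto (mm G) p (𝓝 0) →
    φ (ind G hG) = 0

lemma exSp (p : Ultrafilter ℤ) (F : Set UnitAddCircle) (hF : MeasurableSet F)
    (h : ¬ Tendsto (mm F) p (𝓝 0)) :
    ∃ (W : Ultrafilter UnitAddCircle) (φ : LL → ℂ), Sp p φ ∧ F ∈ W ∧
      (W : Filter UnitAddCircle) ≤ ae volume ∧ ∀ f : LL, Tendsto f W (𝓝 (φ f)) := by
  obtain ⟨W, hW, hFW, hGW⟩ := exUltra p F hF h
  obtain ⟨φ, hφ, hlim⟩ := exChar W hW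
  refine ⟨W, φ, ⟨hφ, fun G hG hGt => ?_⟩, hFW, hW, hlim⟩
  refine tendsto_nhds_unique (hlim _) ?_
  have h1 : Tendsto (fun _ : UnitAddCircle => (0 : ℂ)) W (𝓝 0) := tendsto_const_nhds
  refine h1.congr' ?_
  filter_upwards [hGW G hG hGt, hW (coe_ind G hG)] with t ht1 ht2
  rw [ht2, Set.indicator_of_notMem ht1]

lemma ind_of_mem {W : Ultrafilter UnitAddCircle} (hW : (W : Filter UnitAddCircle) ≤ ae volume)
    {φ : LL → ℂ} (hlim : ∀ f : LL, Tendsto f W (𝓝 (φ f))) {F : Set UnitAddCircle}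
    (hF : MeasurableSet F) (hFW : F ∈ W) : φ (ind F hF) = 1 := by
  refine tendsto_nhds_unique (hlim _) ?_
  have h1 : Tendsto (fun _ : UnitAddCircle => (1 : ℂ)) W (𝓝 1) := tendsto_const_nhds
  refine h1.congr' ?_
  filter_upwards [hFW, hW (coe_ind F hF)] with t ht1 ht2
  rw [ht2, Set.indicator_of_mem ht1]

end Pool.Agent.H261.AS
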