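import Mathlib

set_option autoImplicit false

/-!
# A topologically transitive shift invariant closed set of ultrafilters on `ℤ`
that meets uncountably many pairwise almost disjoint sets of integers

The construction is that of `Helper824_tan.Dyn` (library), with a different coding: here the sets
are pairwise almost disjoint as sets of integers.
-/

namespace Pool.Agent.H261.AS.Dyn

open Filter Set Topology

/-- the shift by `n` on ultrafilters on `ℤ` -/
def sh (n : ℤ) (p : Ultrafilter ℤ) : Ultrafilter ℤ := p.map (fun a => a + n)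

lemma mem_sh {n : ℤ} {p : Ultrafilter ℤ} {S : Set ℤ} : S ∈ sh n p ↔ {a | a + n ∈ S} ∈ p :=
  Iff.rfl

lemma sh_sh (m n : ℤ) (p : Ultrafilter ℤ) : sh m (sh n p) = sh (n + m) p := by
  apply Ultrafilter.ext
  intro S
  simp only [mem_sh, mem_ofPred_eq, add_assoc]

lemma sh_zero (p : Ultrafilter ℤ) : sh 0 p = p := by
  apply Ultrafilter.ext
  intro S
  simp only [mem_sh, add_zero, ofPred_mem_eq]

lemma continuous_sh (n : ℤ) : Continuous (sh n) := by
  refine continuous_generateFrom_iff.2 ?_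
  rintro _ ⟨S, rfl⟩
  exact ultrafilter_isOpen_basic {a | a + n ∈ S}

lemma exists_bits (f : ℕ → Bool) (n : ℕ) : ∃ x < 2 ^ n, ∀ i < n, Nat.testBit x i = f i := by
  induction n with
  | zero => exact ⟨0, by norm_num, by simp⟩
  | succ n ih =>
    obtain ⟨x, hx, hb⟩ := ih
    rcases hf : f n with _ | _
    · refine ⟨x, hx.trans (Nat.pow_lt_pow_right (by norm_num) (Nat.lt_succ_self n)), ?_⟩
      intro i hi
      rcases Nat.lt_succ_iff_lt_or_eq.1 hi with h | h
      · exact hb i h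
      · rw [h, hf]
        exact Nat.testBit_eq_false_of_lt hx
    · refine ⟨2 ^ n + x, by rw [pow_succ]; omega, ?_⟩
      intro i hi
      rcases Nat.lt_succ_iff_lt_or_eq.1 hi with h | h
      · rw [Nat.testBit_two_pow_add_gt h]
        exact hb i h
      · rw [h, Nat.testBit_two_pow_add_eq, Nat.testBit_eq_false_of_lt hx, hf]
        rfl

/-- number of the block of `a` -/
def blk (a : ℤ) : ℕ := Nat.sqrt a.toNat
/-- depth of the block number `k` -/
def dep (k : ℕ) : ℕ := Nat.sqrt (Nat.log 2 k)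

/-- the almost disjoint sets -/
def AA (d : ℕ → Bool) : Set ℤ :=
  {a | ∀ j < dep (blk a), Nat.testBit (blk a) ((a.toNat - blk a ^ 2) * dep (blk a) + j) = d j}

lemma AA_ad {d d' : ℕ → Bool} (h : d ≠ d') : ∃ N : ℤ, ∀ a ≥ N, a ∈ AA d → a ∉ AA d' := by
  obtain ⟨i, hi⟩ := Function.ne_iff.1 h
  refine ⟨((2 ^ ((i + 1) ^ 2) + 1) ^ 2 : ℕ), fun a ha h1 h2 => ?_⟩
  have h3 : dep (blk a) ≤ i := by
    by_contra hlt
    push Not at hlt
    exact hi ((h1 i hlt).symm.trans (h2 i hlt))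
  have h4 : Nat.log 2 (blk a) < (i + 1) ^ 2 := by
    have := Nat.lt_succ_sqrt' (Nat.log 2 (blk a))
    have h5 : (Nat.sqrt (Nat.log 2 (blk a))).succ ≤ i + 1 := Nat.succ_le_succ h3
    exact lt_of_lt_of_le this (Nat.pow_le_pow_left h5 2)
  have h6 : blk a < 2 ^ ((i + 1) ^ 2) := Nat.lt_pow_of_log_lt (by norm_num) h4
  have h7 : a.toNat < (blk a + 1) ^ 2 := Nat.lt_succ_sqrt' a.toNat
  have h8 : a.toNat < (2 ^ ((i + 1) ^ 2) + 1) ^ 2 :=
    lt_of_lt_of_le h7 (Nat.pow_le_pow_left (by omega) 2)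
  omega

lemma AA_pat (J : Finset ℤ) (π : ℤ → ℕ → Bool) (N : ℕ) :
    ∃ a : ℤ, (N : ℤ) ≤ a ∧ ∀ j ∈ J, a + j ∈ AA (π j) := by
  obtain ⟨M, hM⟩ : ∃ M : ℕ, ∀ j ∈ J, |j| ≤ (M : ℤ) := by
    refine ⟨∑ j ∈ J, |j|.toNat, fun j hj => ?_⟩
    have h1 : |j|.toNat ≤ ∑ j ∈ J, |j|.toNat :=
      Finset.single_le_sum (f := fun j : ℤ => |j|.toNat) (fun _ _ => Nat.zero_le _) hj
    have h2 : (|j|.toNat : ℤ) = |j| := Int.toNat_of_nonneg (abs_nonneg j)
    rw [← h2]
    exact_mod_cast h1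
  set m : ℕ := 2 * M + 1 + N with hm
  have hm0 : 0 < m := by omega
  obtain ⟨x, hx, hb⟩ := exists_bits (fun s => π ((s / m : ℕ) - (M : ℤ)) (s % m)) (m ^ 2)
  set k : ℕ := 2 ^ (m ^ 2) + x with hk
  have hmk : m ≤ k := by
    have h1 : m ≤ m ^ 2 := by nlinarith
    have h2 : m ^ 2 < 2 ^ (m ^ 2) := Nat.lt_two_pow_self
    omega
  have hlog : Nat.log 2 k = m ^ 2 := by
    apply Nat.log_eq_of_pow_le_of_lt_pow
    · omega
    · rw [pow_succ]; omega
  have hdep : dep k = m := by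
    unfold dep
    rw [hlog]
    exact Nat.sqrt_eq' m
  refine ⟨(k : ℤ) ^ 2 + M, ?_, ?_⟩
  · have h3 : (k : ℤ) ≤ (k : ℤ) ^ 2 := by
      have : (1 : ℤ) ≤ k := by exact_mod_cast (by omega : 1 ≤ k)
      nlinarith
    have h4 : (N : ℤ) ≤ k := by exact_mod_cast (by omega : N ≤ k)
    omega
  · intro j hj
    have hj' := hM j hj
    rw [abs_le] at hj'
    obtain ⟨i, hi⟩ : ∃ i : ℕ, (i : ℤ) = M + j := ⟨(M + j).toNat, by omega⟩
    have hi2 : i ≤ 2 * M := by omega
    have e : ((k : ℤ) ^ 2 + M + j) = ((k ^ 2 + i : ℕ) : ℤ) := by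
      push_cast
      rw [hi]; ring
    have hs : Nat.sqrt (k ^ 2 + i) = k := Nat.sqrt_add_eq' k (by omega)
    have hblk : blk ((k ^ 2 + i : ℕ) : ℤ) = k := by
      unfold blk
      rw [Int.toNat_natCast, hs]
    rw [e]
    intro jj hjj
    rw [hblk, hdep] at hjj
    rw [hblk, hdep, Int.toNat_natCast, Nat.add_sub_cancel_left]
    have hlt : i * m + jj < m ^ 2 := by
      have : (i + 1) * m ≤ m * m := Nat.mul_le_mul_right m (by omega)
      nlinarith
    rw [hk, Nat.testBit_two_pow_add_gt hlt, hb _ hlt]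
    have e1 : (i * m + jj) / m = i := by
      rw [Nat.add_comm, Nat.add_mul_div_right _ _ hm0, Nat.div_eq_of_lt hjj, zero_add]
    have e2 : (i * m + jj) % m = jj := by
      rw [Nat.add_comm, Nat.add_mul_mod_self_right, Nat.mod_eq_of_lt hjj]
    rw [e1, e2]
    congr 1
    omega

/-- the positions where a finite pattern occurs -/
def pat (J : Finset ℤ) (π : ℤ → ℕ → Bool) : Set ℤ := {a | ∀ j ∈ J, a + j ∈ AA (π j)}

/-- the largest system -/
def K0 : Set (Ultrafilter ℤ) := {p | ∀ N : ℤ, {a : ℤ | N ≤ a} ∈ p}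

lemma K0_closed : IsClosed K0 := by
  have : K0 = (⋂ N : ℤ, {p : Ultrafilter ℤ | {a : ℤ | N ≤ a} ∈ p}) := by
    ext p
    simp only [K0, mem_ofPred_eq, mem_iInter]
  rw [this]
  exact (isClosed_iInter fun N => ultrafilter_isClosed_basic _)

lemma K0_inv {p : Ultrafilter ℤ} (hp : p ∈ K0) (n : ℤ) : sh n p ∈ K0 := by
  intro N
  rw [mem_sh]
  filter_upwards [hp (N - n)] with a ha
  have h1 : N - n ≤ a := ha
  have h2 : N ≤ a + n := by linarith
  exact h2

/-- the systems in which all patterns occur -/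
structure Good (K : Set (Ultrafilter ℤ)) : Prop where
  closed : IsClosed K
  sub : K ⊆ K0
  inv : ∀ p ∈ K, ∀ n, sh n p ∈ K
  meets : ∀ J π, ∃ p ∈ K, pat J π ∈ p

lemma good_K0 : Good K0 := by
  refine ⟨K0_closed, le_rfl, fun p hp n => K0_inv hp n, fun J π => ?_⟩
  set S : ℕ → Set ℤ := fun N => {a | (N : ℤ) ≤ a ∧ a ∈ pat J π} with hS
  have hanti : Antitone S := by
    intro N N' hNN a ha
    exact ⟨le_trans (by exact_mod_cast hNN) ha.1, ha.2⟩
  have hne : ∀ N, (S N).Nonempty := by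
    intro N
    obtain ⟨a, ha1, ha2⟩ := AA_pat J π N
    exact ⟨a, ha1, ha2⟩
  have hbot : (⨅ N, 𝓟 (S N)).NeBot := by
    refine iInf_neBot_of_directed ?_ fun N => ?_
    · intro N N'
      refine ⟨max N N', ?_, ?_⟩
      · exact principal_mono.2 (hanti (le_max_left _ _))
      · exact principal_mono.2 (hanti (le_max_right _ _))
    · exact principal_neBot_iff.2 (hne N)
  obtain ⟨p, hp⟩ := Ultrafilter.exists_le (⨅ N, 𝓟 (S N))
  have hp2 : ∀ N, S N ∈ p := fun N => hp (mem_iInf_of_mem N (mem_principal_self _))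
  refine ⟨p, fun N => ?_, ?_⟩
  · filter_upwards [hp2 N.toNat] with a ha
    have h1 := ha.1
    have h2 : N ≤ a := by omega
    exact h2
  · filter_upwards [hp2 0] with a ha
    exact ha.2

lemma exists_minimal : ∃ K, Good K ∧ ∀ K', Good K' → K' ⊆ K → K' = K := by
  obtain ⟨K, hK⟩ : ∃ K, Minimal (· ∈ {K | Good K}) K := by
    obtain ⟨m, -, hm⟩ := zorn_superset_nonempty {K | Good K} (by
      intro c hc hchain hcne
      refine ⟨⋂₀ c, ?_, fun s hs => sInter_subset_of_mem hs⟩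
      obtain ⟨K1, hK1⟩ := hcne
      refine ⟨isClosed_sInter fun K hK => (hc hK).closed,
        (sInter_subset_of_mem hK1).trans (hc hK1).sub, ?_, ?_⟩
      · intro p hp n
        rw [mem_sInter] at hp ⊢
        exact fun K hK => (hc hK).inv p (hp K hK) n
      · intro J π
        have : Nonempty c := ⟨⟨K1, hK1⟩⟩
        have h1 : (⋂ K : c, ((K : Set (Ultrafilter ℤ)) ∩ {p | pat J π ∈ p})).Nonempty := by
          apply IsCompact.nonempty_iInter_of_directed_nonempty_isCompact_isClosed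
          · intro K K'
            rcases hchain.total K.2 K'.2 with h | h
            · exact ⟨K, le_rfl, inter_subset_inter_left _ h⟩
            · exact ⟨K', inter_subset_inter_left _ h, le_rfl⟩
          · intro K
            obtain ⟨p, hp1, hp2⟩ := (hc K.2).meets J π
            exact ⟨p, hp1, hp2⟩
          · intro K
            exact ((hc K.2).closed.inter (ultrafilter_isClosed_basic _)).isCompact
          · intro K
            exact (hc K.2).closed.inter (ultrafilter_isClosed_basic _)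
        obtain ⟨p, hp⟩ := h1
        rw [mem_iInter] at hp
        refine ⟨p, ?_, (hp ⟨K1, hK1⟩).2⟩
        rw [mem_sInter]
        exact fun K hK => (hp ⟨K, hK⟩).1) K0 good_K0
    exact ⟨m, hm⟩
  refine ⟨K, hK.1, fun K' h1 h2 => ?_⟩
  exact Set.Subset.antisymm h2 (hK.2 h1 h2)

lemma closure_inv {W : Set (Ultrafilter ℤ)} (h : ∀ p ∈ W, ∀ n, sh n p ∈ W) :
    ∀ p ∈ closure W, ∀ n, sh n p ∈ closure W := by
  intro p hp n
  exact map_mem_closure (continuous_sh n) hp (fun q hq => h q hq n)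

/-- joining two patterns -/
lemma join (J J' : Finset ℤ) (π π' : ℤ → ℕ → Bool) : ∃ (J'' : Finset ℤ) (π'' : ℤ → ℕ → Bool)
    (m : ℤ), pat J'' π'' ⊆ pat J π ∧ ∀ a ∈ pat J'' π'', a + m ∈ pat J' π' := by
  classical
  obtain ⟨M, hM⟩ : ∃ M : ℤ, ∀ j ∈ J, j ≤ M := by
    obtain ⟨M, hM⟩ := J.bddAbove
    exact ⟨M, fun j hj => hM hj⟩
  obtain ⟨M', hM'⟩ : ∃ M : ℤ, ∀ j ∈ J', M ≤ j := by
    obtain ⟨M, hM⟩ := J'.bddBelow
    exact ⟨M, fun j hj => hM hj⟩
  set m : ℤ := M - M' + 1 with hm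
  refine ⟨J ∪ J'.image (fun j => m + j), fun i => if i ≤ M then π i else π' (i - m), m, ?_, ?_⟩
  · intro a ha j hj
    have h1 := ha j (Finset.mem_union_left _ hj)
    simp only [if_pos (hM j hj)] at h1
    exact h1
  · intro a ha j hj
    have h1 := ha (m + j) (Finset.mem_union_right _ (Finset.mem_image_of_mem _ hj))
    have h2 : ¬ (m + j ≤ M) := by
      have := hM' j hj
      omega
    simp only [if_neg h2] at h1
    have h3 : m + j - m = j := by ring
    rw [h3] at h1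
    rw [add_assoc]
    exact h1

theorem dyn : ∃ K : Set (Ultrafilter ℤ),
    (∀ p ∈ K, ∀ N : ℤ, {a : ℤ | N ≤ a} ∈ p) ∧ (∀ p ∈ K, ∀ n, sh n p ∈ K) ∧
    (∀ V O : Set (Ultrafilter ℤ), IsOpen V → IsOpen O → (V ∩ K).Nonempty → (O ∩ K).Nonempty →
      ∃ p ∈ O ∩ K, ∃ n, sh n p ∈ V) ∧
    ∃ A : (ℕ → Bool) → Set ℤ, (∀ d, ∃ p ∈ K, A d ∈ p) ∧
      ∀ d d', d ≠ d' → ∃ N : ℤ, ∀ a ≥ N, a ∈ A d → a ∉ A d' := by
  obtain ⟨K, hK, hmin⟩ := exists_minimal
  refine ⟨K, fun p hp => (hK.sub hp), hK.inv, ?_, ?_⟩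
  · intro V O hV hO hVK hOK
    set W : Set (Ultrafilter ℤ) := {p | p ∈ K ∧ ∃ n, sh n p ∈ V} with hW
    have hWinv : ∀ p ∈ W, ∀ n, sh n p ∈ W := by
      rintro p ⟨hp, k, hk⟩ n
      refine ⟨hK.inv p hp n, k - n, ?_⟩
      rw [sh_sh]
      have : n + (k - n) = k := by ring
      rwa [this]
    have hK' : ¬ Good (K \ W) := by
      intro hg
      have h1 := hmin _ hg sdiff_subset
      obtain ⟨p, hpV, hpK⟩ := hVK
      have h2 : p ∈ K \ W := by rw [h1]; exact hpK
      exact h2.2 ⟨hpK, 0, by rwa [sh_zero]⟩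
    obtain ⟨J, π, hJ⟩ : ∃ J π, ∀ p ∈ K, pat J π ∈ p → p ∈ W := by
      by_contra hcon
      push Not at hcon
      apply hK'
      refine ⟨?_, sdiff_subset.trans hK.sub, ?_, ?_⟩
      · have h1 : K \ W = K ∩ (⋃ n, sh n ⁻¹' V)ᶜ := by
          ext p
          simp only [hW, Set.mem_sdiff, mem_ofPred_eq, mem_inter_iff, mem_compl_iff, mem_iUnion,
            mem_preimage, not_and]
          constructor
          · rintro ⟨h1, h2⟩; exact ⟨h1, h2 h1⟩
          · rintro ⟨h1, h2⟩; exact ⟨h1, fun _ => h2⟩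
        rw [h1]
        exact hK.closed.inter (isOpen_iUnion fun n => hV.preimage (continuous_sh n)).isClosed_compl
      · rintro p ⟨hp1, hp2⟩ n
        refine ⟨hK.inv p hp1 n, fun h => hp2 ?_⟩
        have := hWinv _ h (-n)
        rwa [sh_sh, add_neg_cancel, sh_zero] at this
      · intro J π
        obtain ⟨p, hp1, hp2, hp3⟩ := hcon J π
        exact ⟨p, ⟨hp1, hp3⟩, hp2⟩
    have hgood : Good (closure W) := by
      have hsub : closure W ⊆ K := closure_minimal (fun p hp => hp.1) hK.closed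
      refine ⟨isClosed_closure, hsub.trans hK.sub, closure_inv hWinv, ?_⟩
      intro J' π'
      obtain ⟨J'', π'', m, h1, h2⟩ := join J J' π π'
      obtain ⟨p, hp1, hp2⟩ := hK.meets J'' π''
      refine ⟨sh m p, subset_closure (hWinv p (hJ p hp1 (mem_of_superset hp2 h1)) m), ?_⟩
      rw [mem_sh]
      exact mem_of_superset hp2 h2
    have heq := hmin _ hgood (closure_minimal (fun p hp => hp.1) hK.closed)
    obtain ⟨q, hqO, hqK⟩ := hOK
    rw [← heq] at hqK
    obtain ⟨p, hpO, hpW⟩ := mem_closure_iff.1 hqK O hO hqO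
    exact ⟨p, ⟨hpO, hpW.1⟩, hpW.2⟩
  · refine ⟨AA, fun d => ?_, fun d d' hdd => AA_ad hdd⟩
    obtain ⟨p, hp1, hp2⟩ := hK.meets {0} (fun _ => d)
    refine ⟨p, hp1, mem_of_superset hp2 fun a ha => ?_⟩
    have := ha 0 (Finset.mem_singleton_self 0)
    simpa using this

end Pool.Agent.H261.AS.Dyn
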