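import Pool.Agent.H261.AS.Val2

set_option autoImplicit false
set_option linter.unusedSectionVars false
set_option linter.unusedVariables false

/-!
# A maximal antisymmetric set for `H^∞ + C` that is not the support of a probability measure
-/

namespace Pool.Agent.H261.AS

open MeasureTheory AddCircle Filter Topology
open scoped ENNReal ComplexConjugate

lemma zz_zero : zz 0 = 1 := by
  unfold zz
  rw [fourier_one, toCircle_zero, Circle.coe_one]

lemma norm_zz_sub_le (t : UnitAddCircle) : ‖zz t - 1‖ ≤ 2 := by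
  refine (norm_sub_le _ _).trans ?_
  rw [norm_zz, norm_one]; norm_num

/-- the coordinate function is `1` on the supports -/
lemma val_z {p : Ultrafilter ℤ} (hp : ∀ N : ℤ, {a : ℤ | N ≤ a} ∈ p) {φ : LL → ℂ}
    (hφ : Sp p φ) {u : LL} (hu : ⇑u =ᵐ[volume] zz) : φ u = 1 := by
  refine val ?_ hφ
  have h1 := (tendsto_cont (fourier 1)).comp (tendsto_toNat hp)
  have h2 : Tendsto (fun a : ℤ => 2 * ∫ t, ‖zz t - zz 0‖ ∂nu a.toNat) p (𝓝 0) := by
    have := h1.const_mul 2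
    rw [mul_zero] at this
    exact this
  refine squeeze_zero (fun a => QQ_nonneg _ _ _) (fun a => ?_) h2
  unfold QQ
  rw [← integral_const_mul]
  have i1 : Integrable (fun t => zz t - zz 0) (nu a.toNat) :=
    ((Bdd.cont (fourier 1)).integrable a.toNat).sub (integrable_const _)
  refine integral_mono_ae (int_sq_dev u 1 _) (i1.norm.const_mul 2) ?_
  filter_upwards [(nu_ac a.toNat).ae_le hu] with t ht
  rw [ht, zz_zero]
  have h3 := norm_zz_sub_le t
  have h4 := norm_nonneg (zz t - 1)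
  nlinarith

lemma char_conj {φ : LL → ℂ} (h : IsChar φ) {u v : LL} (hu : ⇑u =ᵐ[volume] zz)
    (hv : ⇑v =ᵐ[volume] fun t => conj (zz t)) : φ v = conj (φ u) := by
  obtain ⟨e, he⟩ := exL (Bdd.const 1)
  have he1 := h.2.2 e he
  have h1 : φ e = φ u * φ v := by
    apply h.2.1
    filter_upwards [hu, hv, he] with t a1 a2 a3
    rw [a1, a2, a3, zz_conj']
  rw [he1] at h1
  have h2 : ‖φ u‖ ≤ 1 := h.norm_le (by
    filter_upwards [hu] with t a1
    rw [a1, norm_zz])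
  have h3 : ‖φ v‖ ≤ 1 := h.norm_le (by
    filter_upwards [hv] with t a1
    rw [a1, RCLike.norm_conj, norm_zz])
  have h4 : ‖φ u‖ * ‖φ v‖ = 1 := by rw [← norm_mul, ← h1, norm_one]
  have h5 : ‖φ u‖ = 1 := by
    have := norm_nonneg (φ u)
    have := norm_nonneg (φ v)
    nlinarith
  have h6 : conj (φ u) * φ u = 1 := by
    rw [mul_comm, Complex.mul_conj, Complex.normSq_eq_norm_sq, h5]; simp
  calc φ v = (conj (φ u) * φ u) * φ v := by rw [h6, one_mul]
    _ = conj (φ u) * (φ u * φ v) := by ring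
    _ = conj (φ u) := by rw [← h1, mul_one]

lemma inA_cont {u : LL} (g : C(UnitAddCircle, ℂ)) (hu : ⇑u =ᵐ[volume] g) : InA u := by
  refine ⟨0, u, fun n _ => ?_, ⟨g, hu⟩, (zero_add u).symm⟩
  unfold fourierCoeff
  rw [int_haar]
  have h0 : (⇑(0 : LL) : UnitAddCircle → ℂ) =ᵐ[volume] 0 := Lp.coeFn_zero _ _ _
  rw [integral_eq_zero_of_ae]
  filter_upwards [h0] with t ht
  rw [ht]
  simp

/-- antisymmetric sets -/
def Anti (T : Set {φ : LL → ℂ | IsChar φ}) : Prop :=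
  ∀ f : LL, InA f → (∀ x ∈ T, (x.1 f).im = 0) → ∀ x ∈ T, ∀ y ∈ T, x.1 f = y.1 f

/-- the coordinate function is constant on an antisymmetric set -/
lemma anti_z {T : Set {φ : LL → ℂ | IsChar φ}} (hT : Anti T) {u : LL} (hu : ⇑u =ᵐ[volume] zz) :
    ∀ x ∈ T, ∀ y ∈ T, x.1 u = y.1 u := by
  obtain ⟨v, hv⟩ := exL (f := fun t => conj (zz t)) (C := 1)
    ⟨(Complex.continuous_conj.comp continuous_zz).aestronglyMeasurable,
      Eventually.of_forall fun t => by rw [RCLike.norm_conj, norm_zz]⟩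
  have a1 : InA (u + v) := by
    refine inA_cont (fourier 1 + ContinuousMap.mk (fun t => conj (zz t))
      (Complex.continuous_conj.comp continuous_zz)) ?_
    filter_upwards [hu, hv, Lp.coeFn_add u v] with t b1 b2 b3
    rw [b3, Pi.add_apply, b1, b2]
    rfl
  have a2 : InA (Complex.I • u - Complex.I • v) := by
    refine inA_cont (Complex.I • fourier 1 - Complex.I • ContinuousMap.mk (fun t => conj (zz t))
      (Complex.continuous_conj.comp continuous_zz)) ?_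
    filter_upwards [hu, hv, Lp.coeFn_sub (Complex.I • u) (Complex.I • v),
      Lp.coeFn_smul Complex.I u, Lp.coeFn_smul Complex.I v] with t b1 b2 b3 b4 b5
    rw [b3, Pi.sub_apply, b4, b5, Pi.smul_apply, Pi.smul_apply, b1, b2]
    rfl
  intro x hx y hy
  have hc : ∀ w : {φ : LL → ℂ | IsChar φ}, w.1 v = conj (w.1 u) := fun w => char_conj w.2 hu hv
  have h1 := hT _ a1 (fun w _ => by
    have hw : IsChar w.1 := w.2
    rw [hw.add, hc w]; simp) x hx y hy
  have h2 := hT _ a2 (fun w _ => by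
    have hw : IsChar w.1 := w.2
    rw [hw.sub, hw.smul, hw.smul, hc w]; simp) x hx y hy
  have hx' : IsChar x.1 := x.2
  have hy' : IsChar y.1 := y.2
  rw [hx'.add, hy'.add, hc x, hc y] at h1
  rw [hx'.sub, hy'.sub, hx'.smul, hy'.smul, hx'.smul, hy'.smul, hc x, hc y] at h2
  apply Complex.ext
  · have := congrArg Complex.re h1
    simp only [Complex.add_re, Complex.conj_re] at this
    linarith
  · have := congrArg Complex.re h2
    simp only [Complex.sub_re, Complex.mul_re, Complex.I_re, Complex.I_im, Complex.conj_re,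
      Complex.conj_im] at this
    linarith

lemma ind_far {φ : LL → ℂ} (h : IsChar φ) {u : LL} (hu : ⇑u =ᵐ[volume] zz) (h1 : φ u = 1)
    {G : Set UnitAddCircle} (hG : MeasurableSet G) {δ : ℝ} (hδ : 0 < δ)
    (hfar : ∀ t ∈ G, δ ≤ ‖t‖) : φ (ind G hG) = 0 := by
  obtain ⟨η, hη, hz⟩ := zz_far hδ
  have hm : Measurable (G.indicator fun t => (zz t - 1)⁻¹) :=
    ((continuous_zz.measurable.sub measurable_const).inv).indicator hG
  obtain ⟨v, hv⟩ := exL (f := G.indicator fun t => (zz t - 1)⁻¹) (C := η⁻¹)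
    ⟨hm.aestronglyMeasurable, Eventually.of_forall fun t => by
      by_cases ht : t ∈ G
      · rw [Set.indicator_of_mem ht, norm_inv]
        exact inv_anti₀ hη (hz t (hfar t ht))
      · rw [Set.indicator_of_notMem ht, norm_zero]
        positivity⟩
  obtain ⟨e, he⟩ := exL (Bdd.const 1)
  have he1 := h.2.2 e he
  have h2 : φ (ind G hG) = φ (u - e) * φ v := by
    apply h.2.1
    filter_upwards [coe_ind G hG, Lp.coeFn_sub u e, hu, he, hv] with t b1 b2 b3 b4 b5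
    rw [b1, b2, Pi.sub_apply, b3, b4, b5]
    by_cases ht : t ∈ G
    · rw [Set.indicator_of_mem ht, Set.indicator_of_mem ht, mul_inv_cancel₀]
      intro h0
      have := hz t (hfar t ht)
      rw [h0, norm_zero] at this
      linarith
    · rw [Set.indicator_of_notMem ht, Set.indicator_of_notMem ht, mul_zero]
  rw [h2, h.sub, h1, he1, sub_self, zero_mul]

lemma ind_inter {φ : LL → ℂ} (h : IsChar φ) {F G : Set UnitAddCircle} (hF : MeasurableSet F)
    (hG : MeasurableSet G) : φ (ind (F ∩ G) (hF.inter hG)) = φ (ind F hF) * φ (ind G hG) := by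
  apply h.2.1
  filter_upwards [coe_ind F hF, coe_ind G hG, coe_ind (F ∩ G) (hF.inter hG)] with t b1 b2 b3
  rw [b1, b2, b3]
  by_cases h1 : t ∈ F <;> by_cases h2 : t ∈ G <;> simp [Set.indicator, h1, h2]

/-- the set belonging to a set of integers -/
def FF (B : Set ℤ) : Set UnitAddCircle := ⋃ a : ℤ, ⋃ (_ : a ∈ B ∧ 0 ≤ a), JJ a.toNat

lemma meas_FF (B : Set ℤ) : MeasurableSet (FF B) :=
  MeasurableSet.iUnion fun a => MeasurableSet.iUnion fun _ => meas_JJ _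

lemma mem_FF {B : Set ℤ} {t : UnitAddCircle} :
    t ∈ FF B ↔ ∃ a : ℤ, (a ∈ B ∧ 0 ≤ a) ∧ t ∈ JJ a.toNat := by
  unfold FF
  simp only [Set.mem_iUnion, exists_prop]

lemma JJ_lt {m n : ℕ} {t : UnitAddCircle} (hm : t ∈ JJ m) (hn : t ∈ JJ n) : ¬ m < n := by
  intro hlt
  have h1 : (1 / 2 : ℝ) ^ (m + 2) < ‖t‖ := hm.1
  have h2 : ‖t‖ ≤ (1 / 2 : ℝ) ^ (n + 1) := hn.2
  have h3 : (1 / 2 : ℝ) ^ (n + 1) ≤ (1 / 2) ^ (m + 2) :=
    pow_le_pow_of_le_one (by norm_num) (by norm_num) (by omega)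
  linarith

lemma FF_inter {B B' : Set ℤ} {N : ℤ} (h : ∀ a ≥ N, a ∈ B → a ∉ B') :
    ∀ t ∈ FF B ∩ FF B', (1 / 2 : ℝ) ^ (N.toNat + 2) ≤ ‖t‖ := by
  rintro t ⟨h1, h2⟩
  obtain ⟨a, ⟨ha1, ha2⟩, ha3⟩ := mem_FF.1 h1
  obtain ⟨b, ⟨hb1, hb2⟩, hb3⟩ := mem_FF.1 h2
  have h3 := JJ_lt ha3 hb3
  have h4 := JJ_lt hb3 ha3
  have h5 : a = b := by omega
  subst h5
  have h6 : a < N := by
    by_contra h7
    exact h a (by omega) ha1 hb1
  have h8 : (1 / 2 : ℝ) ^ (N.toNat + 2) ≤ (1 / 2) ^ (a.toNat + 2) :=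
    pow_le_pow_of_le_one (by norm_num) (by norm_num) (by omega)
  exact h8.trans ha3.1.le

lemma FF_big {B : Set ℤ} {p : Ultrafilter ℤ} (hp : ∀ N : ℤ, {a : ℤ | N ≤ a} ∈ p) (hB : B ∈ p) :
    ¬ Tendsto (mm (FF B)) p (𝓝 0) := by
  intro h
  have h1 : ∀ᶠ a in (p : Filter ℤ), mm (FF B) a < 1 / 64 :=
    h.eventually (Iio_mem_nhds (by norm_num))
  have h2 : ∀ᶠ a in (p : Filter ℤ), (0 : ℤ) ≤ a := hp 0
  have h2' : ∀ᶠ a in (p : Filter ℤ), a ∈ B := hB
  obtain ⟨a, ha1, h0, ha3⟩ := (h1.and (h2.and h2')).exists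
  have h3 : 1 / 64 ≤ mm (FF B) a := by
    refine (real_nu_JJ a.toNat).trans (measureReal_mono ?_)
    intro t ht
    exact mem_FF.2 ⟨a, ⟨ha3, h0⟩, ht⟩
  linarith

/-- a set with uncountably many disjoint relatively open subsets is not a support -/
lemma no_measure {X : Type*} [TopologicalSpace X] [MeasurableSpace X] [BorelSpace X]
    (μ : Measure X) [IsProbabilityMeasure μ] {S : Set X} (hS : IsClosed S) (h0 : μ Sᶜ = 0)
    (W : (ℕ → Bool) → Set X) (hW : ∀ d, IsOpen (W d)) (hpos : ∀ d, μ (W d) ≠ 0)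
    (hdis : ∀ d d', d ≠ d' → ∀ x ∈ S, x ∈ W d → x ∉ W d') : False := by
  have h1 : Set.Countable {d : ℕ → Bool | 0 < μ (W d ∩ S)} := by
    refine Measure.countable_meas_pos_of_disjoint_iUnion (μ := μ)
      (fun d => (hW d).measurableSet.inter hS.measurableSet) ?_
    intro d d' hd
    rw [Function.onFun, Set.disjoint_left]
    rintro x ⟨hx1, hx2⟩ ⟨hx3, -⟩
    exact hdis d d' hd x hx2 hx1 hx3
  have h2 : {d : ℕ → Bool | 0 < μ (W d ∩ S)} = Set.univ := by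
    rw [Set.eq_univ_iff_forall]
    intro d
    show 0 < μ (W d ∩ S)
    rw [pos_iff_ne_zero]
    intro h3
    apply hpos d
    refine measure_mono_null (t := (W d ∩ S) ∪ Sᶜ) ?_ (measure_union_null h3 h0)
    intro x hx
    by_cases hxS : x ∈ S
    · exact Or.inl ⟨hx, hxS⟩
    · exact Or.inr hxS
  rw [h2] at h1
  obtain ⟨f, hf⟩ := h1.exists_eq_range ⟨fun _ => true, trivial⟩
  have h4 : (fun n => !(f n n)) ∈ Set.range f := by rw [← hf]; trivial
  obtain ⟨n, hn⟩ := h4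
  have h5 := congrFun hn n
  revert h5
  cases f n n <;> simp

/-- the main construction -/
theorem core : ∃ S : Set {φ : LL → ℂ | IsChar φ},
    (Anti S ∧ ∀ T, S ⊆ T → Anti T → T = S) ∧
    ∀ [MeasurableSpace {φ : LL → ℂ | IsChar φ}] [BorelSpace {φ : LL → ℂ | IsChar φ}]
      (μ : Measure {φ : LL → ℂ | IsChar φ}), IsProbabilityMeasure μ → IsClosed S → μ Sᶜ = 0 →
      ¬ ∀ U : Set {φ : LL → ℂ | IsChar φ}, IsOpen U → (U ∩ S).Nonempty → μ U ≠ 0 := by
  obtain ⟨K, hK0, hKi, hKt, A, hA1, hA2⟩ := Dyn.dyn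
  obtain ⟨u, hu⟩ := exL (f := zz) (C := 1) ⟨continuous_zz.aestronglyMeasurable,
    Eventually.of_forall fun t => (norm_zz t).le⟩
  let S0 : Set {φ : LL → ℂ | IsChar φ} := {x | ∃ p ∈ K, Sp p x.1}
  have hS0 : Anti S0 := by
    intro f hf hre x hx y hy
    obtain ⟨c, hc⟩ := const_val hK0 hKi hKt hf (fun p hp φ hφ => hre ⟨φ, hφ.1⟩ ⟨p, hp, hφ⟩)
    obtain ⟨p, hp, hpx⟩ := hx
    obtain ⟨q, hq, hqy⟩ := hy
    rw [hc p hp _ hpx, hc q hq _ hqy]
  have hmeet : ∀ d, ∃ x ∈ S0, x.1 (ind (FF (A d)) (meas_FF _)) ≠ 0 := by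
    intro d
    obtain ⟨p, hp, hAp⟩ := hA1 d
    obtain ⟨W, φ, hφ, hFW, hW, hlim⟩ := exSp p _ (meas_FF (A d)) (FF_big (hK0 p hp) hAp)
    refine ⟨⟨φ, hφ.1⟩, ⟨p, hp, hφ⟩, ?_⟩
    show φ _ ≠ 0
    rw [ind_of_mem hW hlim (meas_FF (A d)) hFW]
    exact one_ne_zero
  obtain ⟨x0, hx0, -⟩ := hmeet (fun _ => true)
  let S : Set {φ : LL → ℂ | IsChar φ} := ⋃₀ {T | S0 ⊆ T ∧ Anti T}
  have hS0S : S0 ⊆ S := fun x hx => ⟨S0, ⟨subset_rfl, hS0⟩, hx⟩
  have hSA : Anti S := by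
    intro f hf hre x hx y hy
    obtain ⟨T, ⟨hT1, hT2⟩, hxT⟩ := hx
    obtain ⟨T', ⟨hT1', hT2'⟩, hyT'⟩ := hy
    have h1 := hT2 f hf (fun w hw => hre w ⟨T, ⟨hT1, hT2⟩, hw⟩) x hxT x0 (hT1 hx0)
    have h2 := hT2' f hf (fun w hw => hre w ⟨T', ⟨hT1', hT2'⟩, hw⟩) y hyT' x0 (hT1' hx0)
    rw [h1, h2]
  refine ⟨S, ⟨hSA, fun T hST hT => ?_⟩, ?_⟩
  · refine Set.Subset.antisymm (fun x hx => ⟨T, ⟨hS0S.trans hST, hT⟩, hx⟩) hST
  · intro _ _ μ hμ hS hμS hU
    have hz : ∀ x ∈ S, x.1 u = 1 := by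
      intro x hx
      rw [anti_z hSA hu x hx x0 (hS0S hx0)]
      obtain ⟨p, hp, hpx⟩ := hx0
      exact val_z (hK0 p hp) hpx hu
    have hcont : ∀ f : LL, Continuous fun x : {φ : LL → ℂ | IsChar φ} => x.1 f := fun f =>
      (continuous_apply f).comp continuous_subtype_val
    let W : (ℕ → Bool) → Set {φ : LL → ℂ | IsChar φ} := fun d =>
      {x | x.1 (ind (FF (A d)) (meas_FF _)) ≠ 0}
    have hWo : ∀ d, IsOpen (W d) := fun d => isOpen_ne_fun (hcont _) continuous_const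
    refine no_measure μ hS hμS W hWo (fun d => ?_) ?_
    · obtain ⟨x, hx1, hx2⟩ := hmeet d
      exact hU (W d) (hWo d) ⟨x, hx2, hS0S hx1⟩
    · intro d d' hd x hxS hx1 hx2
      obtain ⟨N, hN⟩ := hA2 d d' hd
      have hx : IsChar x.1 := x.2
      have h1 := ind_far hx hu (hz x hxS) ((meas_FF (A d)).inter (meas_FF (A d')))
        (δ := (1 / 2 : ℝ) ^ (N.toNat + 2)) (by positivity) (FF_inter hN)
      rw [ind_inter hx (meas_FF (A d)) (meas_FF (A d'))] at h1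
      rcases mul_eq_zero.1 h1 with h | h
      · exact hx1 h
      · exact hx2 h

end Pool.Agent.H261.AS
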