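import Pool.Agent.H261.AS.Ana

set_option autoImplicit false
set_option linter.unusedSectionVars false

/-!
# The Poisson integral is multiplicative on bounded analytic boundary functions
-/

namespace Pool.Agent.H261.AS

open MeasureTheory AddCircle Filter Topology
open scoped ENNReal ComplexConjugate

lemma int_haar (f : UnitAddCircle → ℂ) : ∫ t, f t ∂haarAddCircle = ∫ t : UnitAddCircle, f t := by
  rw [integral_haarAddCircle, inv_one, one_smul]

lemma neg_coeff {h : UnitAddCircle → ℂ} (hn : ∀ n : ℤ, n < 0 → fourierCoeff h n = 0) (n : ℕ) :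
    ∫ t, h t * zz t ^ (n + 1) = 0 := by
  have h1 := hn (-((n + 1 : ℕ) : ℤ)) (by push_cast; omega)
  unfold fourierCoeff at h1
  rw [int_haar] at h1
  rw [← h1]
  refine integral_congr_ae (Eventually.of_forall fun t => ?_)
  show h t * zz t ^ (n + 1) = fourier (- -((n + 1 : ℕ) : ℤ)) t • h t
  rw [neg_neg, fourier_nat, smul_eq_mul, mul_comm]

/-- expansion of an integral against a bounded function -/
lemma hasSum_int {h q : UnitAddCircle → ℂ} (hm : AEStronglyMeasurable h volume) {C : ℝ}
    (hb : ∀ᵐ t, ‖h t‖ ≤ C) (qm : AEStronglyMeasurable q volume) {D : ℝ}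
    (qb : ∀ᵐ t, ‖q t‖ ≤ D) :
    HasSum (fun i : ℤ => fourierCoeff h i * ∫ t, fourier i t * q t) (∫ t, h t * q t) := by
  have hL : MemLp h 2 (haarAddCircle (T := 1)) :=
    memLp_haarAddCircle_iff.2 ((memLp_top_of_bound hm C hb).mono_exponent le_top)
  have qL : MemLp (fun t => conj (q t)) 2 (haarAddCircle (T := 1)) :=
    memLp_haarAddCircle_iff.2 ((memLp_top_of_bound
      (Complex.continuous_conj.comp_aestronglyMeasurable qm) D
      (by filter_upwards [qb] with t ht; simpa using ht)).mono_exponent le_top)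
  have key := (hasSum_fourier_series_L2 (hL.toLp h)).mapL (innerSL ℂ (qL.toLp _))
  have e1 : innerSL ℂ (qL.toLp _) (hL.toLp h) = ∫ t, h t * q t := by
    rw [innerSL_apply_apply, L2.inner_def, ← int_haar]
    refine integral_congr_ae ?_
    filter_upwards [qL.coeFn_toLp, hL.coeFn_toLp] with t h1 h2
    rw [h1, h2, RCLike.inner_apply, Complex.conj_conj, mul_comm]
  have e2 : ∀ i : ℤ, innerSL ℂ (qL.toLp _) (fourierCoeff (hL.toLp h) i • fourierLp 2 i) =
      fourierCoeff h i * ∫ t, fourier i t * q t := by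
    intro i
    rw [map_smul, smul_eq_mul, fourierCoeff_congr_ae hL.coeFn_toLp]
    congr 1
    rw [innerSL_apply_apply, L2.inner_def, ← int_haar]
    refine integral_congr_ae ?_
    filter_upwards [qL.coeFn_toLp, coeFn_fourierLp (T := 1) 2 i] with t h1 h2
    rw [h1, h2, RCLike.inner_apply, Complex.conj_conj]
  simp only [e1] at key
  refine key.congr_fun ?_
  intro i
  exact (e2 i).symm

lemma mul_int {w : ℝ} (hw0 : 0 < w) (hw1 : w < 1) {h k : UnitAddCircle → ℂ}
    (hm : AEStronglyMeasurable h volume) {C : ℝ} (hb : ∀ᵐ t, ‖h t‖ ≤ C)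
    (hn : ∀ n : ℤ, n < 0 → fourierCoeff h n = 0)
    (km : AEStronglyMeasurable k volume) {D : ℝ} (kb : ∀ᵐ t, ‖k t‖ ≤ D)
    (kn : ∀ n : ℤ, n < 0 → fourierCoeff k n = 0) :
    ∫ t, (h t * k t) * (PP w t : ℂ) =
      (∫ t, h t * (PP w t : ℂ)) * (∫ t, k t * (PP w t : ℂ)) := by
  have hP : Continuous (fun t => (PP w t : ℂ)) :=
    Complex.continuous_ofReal.comp (continuous_PP hw0 hw1)
  obtain ⟨B, hB⟩ := (isCompact_univ (X := UnitAddCircle)).exists_bound_of_continuousOn
    hP.continuousOn
  have s1 := hasSum_int hm hb (q := fun t => k t * (PP w t : ℂ)) (D := D * B)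
    (km.mul hP.aestronglyMeasurable) (by
      filter_upwards [kb] with t ht
      rw [norm_mul]
      exact mul_le_mul ht (hB t (Set.mem_univ t)) (norm_nonneg _) ((norm_nonneg _).trans ht))
  have s2 := hasSum_int hm hb (q := fun t => (PP w t : ℂ)) (D := B)
    hP.aestronglyMeasurable (Eventually.of_forall fun t => hB t (Set.mem_univ t))
  have s3 := s2.mul_right (∫ t, k t * (PP w t : ℂ))
  have e : ∀ i : ℤ, fourierCoeff h i * ∫ t, fourier i t * (k t * (PP w t : ℂ)) =
      fourierCoeff h i * (∫ t, fourier i t * (PP w t : ℂ)) * (∫ t, k t * (PP w t : ℂ)) := by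
    intro i
    rcases lt_or_ge i 0 with hi | hi
    · rw [hn i hi]; simp
    · obtain ⟨j, rfl⟩ := Int.eq_ofNat_of_zero_le hi
      have a1 := int_pow_mul_PP hw0 hw1 km kb (neg_coeff kn) j
      have a2 := int_pow_mul_PP hw0 hw1 (h := fun _ => 1) aestronglyMeasurable_const (C := 1)
        (Eventually.of_forall fun t => by simp) (fun n => by simpa using int_zz_pow n) j
      have a3 : ∫ t : UnitAddCircle, (1 : ℂ) * (PP w t : ℂ) = 1 := by
        simp only [one_mul]
        rw [integral_complex_ofReal, int_PP hw0 hw1]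
        simp
      rw [a3, mul_one] at a2
      have b1 : ∫ t, fourier (j : ℤ) t * (k t * (PP w t : ℂ)) =
          ∫ t, k t * zz t ^ j * (PP w t : ℂ) := by
        refine integral_congr_ae (Eventually.of_forall fun t => ?_)
        show fourier (j : ℤ) t * (k t * (PP w t : ℂ)) = k t * zz t ^ j * (PP w t : ℂ)
        rw [fourier_nat]; ring
      have b2 : ∫ t, fourier (j : ℤ) t * (PP w t : ℂ) =
          ∫ t : UnitAddCircle, 1 * zz t ^ j * (PP w t : ℂ) := by
        refine integral_congr_ae (Eventually.of_forall fun t => ?_)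
        show fourier (j : ℤ) t * (PP w t : ℂ) = 1 * zz t ^ j * (PP w t : ℂ)
        rw [fourier_nat]; ring
      rw [b1, b2, a1, a2]
      ring
  have s4 : HasSum (fun i : ℤ => fourierCoeff h i * (∫ t, fourier i t * (PP w t : ℂ)) *
      (∫ t, k t * (PP w t : ℂ))) (∫ t, h t * (k t * (PP w t : ℂ))) := by
    simpa only [e] using s1
  have := s4.unique s3
  rw [← this]
  refine integral_congr_ae (Eventually.of_forall fun t => ?_)
  show h t * k t * _ = h t * (k t * _)
  ring

end Pool.Agent.H261.AS
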