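import Pool.Agent.H261.AS.Mul

set_option autoImplicit false
set_option linter.unusedSectionVars false

/-!
# The Poisson measures
-/

namespace Pool.Agent.H261.AS

open MeasureTheory AddCircle Filter Topology
open scoped ENNReal ComplexConjugate

/-- the Poisson measures -/
noncomputable def nu (n : ℕ) : Measure UnitAddCircle :=
  (volume : Measure UnitAddCircle).withDensity (fun t => ENNReal.ofReal (PP (ww n) t))

lemma meas_dens (n : ℕ) : Measurable (fun t => ENNReal.ofReal (PP (ww n) t)) :=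
  ENNReal.measurable_ofReal.comp (continuous_PP (ww_pos n) (ww_lt n)).measurable

lemma nu_ac (n : ℕ) : nu n ≪ (volume : Measure UnitAddCircle) :=
  withDensity_absolutelyContinuous _ _

lemma int_nu (n : ℕ) (f : UnitAddCircle → ℂ) :
    ∫ t, f t ∂nu n = ∫ t, f t * (PP (ww n) t : ℂ) := by
  unfold nu
  rw [integral_withDensity_eq_integral_toReal_smul (meas_dens n)
    (Eventually.of_forall fun t => ENNReal.ofReal_lt_top)]
  refine integral_congr_ae (Eventually.of_forall fun t => ?_)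
  show (ENNReal.ofReal (PP (ww n) t)).toReal • f t = _
  rw [ENNReal.toReal_ofReal (PP_nonneg (ww_pos n) (ww_lt n) t), Complex.real_smul, mul_comm]

instance nu_prob (n : ℕ) : IsProbabilityMeasure (nu n) := by
  constructor
  unfold nu
  rw [withDensity_apply _ MeasurableSet.univ, Measure.restrict_univ,
    ← ofReal_integral_eq_lintegral_ofReal, int_PP (ww_pos n) (ww_lt n), ENNReal.ofReal_one]
  · exact (continuous_PP (ww_pos n) (ww_lt n)).integrable_of_hasCompactSupport
      (HasCompactSupport.of_compactSpace _)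
  · exact Eventually.of_forall fun t => PP_nonneg (ww_pos n) (ww_lt n) t

lemma PP_succ_le (n : ℕ) (t : UnitAddCircle) : PP (ww (n + 1)) t ≤ 4 * PP (ww n) t := by
  have h0 := den_pos (ww_pos n) (ww_lt n) t
  have h1 := den_pos (ww_pos (n + 1)) (ww_lt (n + 1)) t
  have h2 := den_lower (ww_pos (n + 1)) (ww_lt (n + 1)) t
  have hw : ww (n + 1) - ww n = 1 - ww (n + 1) := by
    unfold ww; rw [pow_succ _ (n + 1)]; ring
  have hle : ww n ≤ ww (n + 1) := by
    have := ww_lt (n + 1); linarith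
  have h3 : ‖zz t - ww n‖ ≤ 2 * ‖zz t - ww (n + 1)‖ := by
    have e : zz t - ww n = (zz t - ww (n + 1)) + ((ww (n + 1) - ww n : ℝ) : ℂ) := by
      push_cast; ring
    rw [e]
    refine (norm_add_le _ _).trans ?_
    rw [Complex.norm_real, hw, Real.norm_eq_abs, abs_of_pos (by linarith [ww_lt (n + 1)])]
    linarith
  unfold PP
  rw [mul_div_assoc', div_le_div_iff₀ (by positivity) (by positivity)]
  have h4 : 1 - ww (n + 1) ^ 2 ≤ 1 - ww n ^ 2 := by
    have := ww_pos n
    nlinarith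
  have h5 : ‖zz t - ww n‖ ^ 2 ≤ 4 * ‖zz t - ww (n + 1)‖ ^ 2 := by
    have : ‖zz t - ww n‖ ^ 2 ≤ (2 * ‖zz t - ww (n + 1)‖) ^ 2 :=
      pow_le_pow_left₀ (norm_nonneg _) h3 2
    nlinarith
  have h6 : 0 ≤ 1 - ww (n + 1) ^ 2 := by
    have := ww_lt (n + 1); have := ww_pos (n + 1); nlinarith
  calc (1 - ww (n + 1) ^ 2) * ‖zz t - ww n‖ ^ 2
      ≤ (1 - ww n ^ 2) * (4 * ‖zz t - ww (n + 1)‖ ^ 2) :=
        mul_le_mul h4 h5 (by positivity) (h6.trans h4)
    _ = _ := by ring

lemma nu_succ_le (n : ℕ) (F : Set UnitAddCircle) (hF : MeasurableSet F) :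
    nu (n + 1) F ≤ 4 * nu n F := by
  unfold nu
  rw [withDensity_apply _ hF, withDensity_apply _ hF, ← lintegral_const_mul _ (meas_dens n)]
  refine lintegral_mono fun t => ?_
  show ENNReal.ofReal (PP (ww (n + 1)) t) ≤ 4 * ENNReal.ofReal (PP (ww n) t)
  have : (4 : ℝ≥0∞) = ENNReal.ofReal 4 := by simp
  rw [this, ← ENNReal.ofReal_mul (by norm_num)]
  exact ENNReal.ofReal_le_ofReal (PP_succ_le n t)

lemma real_nu_succ_le (n : ℕ) (F : Set UnitAddCircle) (hF : MeasurableSet F) :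
    (nu (n + 1)).real F ≤ 4 * (nu n).real F := by
  have h := nu_succ_le n F hF
  rw [measureReal_def, measureReal_def]
  have h2 := ENNReal.toReal_mono (ENNReal.mul_ne_top (by norm_num) (measure_ne_top _ _)) h
  rwa [ENNReal.toReal_mul] at h2

lemma real_nu_far {ε : ℝ} (hε : 0 < ε) (n : ℕ) (hn : (1 / 2 : ℝ) ^ (n + 1) ≤ ε / 2) :
    (nu n).real {t | ε ≤ ‖zz t - 1‖} ≤ 8 / ε ^ 2 * (1 / 2) ^ (n + 1) := by
  have hpos : (0 : ℝ) ≤ 8 / ε ^ 2 * (1 / 2) ^ (n + 1) := by positivity
  have hmeas : MeasurableSet {t | ε ≤ ‖zz t - 1‖} :=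
    (isClosed_le continuous_const (continuous_zz.sub continuous_const).norm).measurableSet
  rw [measureReal_def]
  refine ENNReal.toReal_le_of_le_ofReal hpos ?_
  unfold nu
  rw [withDensity_apply _ hmeas]
  calc ∫⁻ t in {t | ε ≤ ‖zz t - 1‖}, ENNReal.ofReal (PP (ww n) t)
      ≤ ∫⁻ t in {t | ε ≤ ‖zz t - 1‖}, ENNReal.ofReal (8 / ε ^ 2 * (1 / 2) ^ (n + 1)) := by
        refine setLIntegral_mono measurable_const fun t ht => ?_
        refine ENNReal.ofReal_le_ofReal ?_
        have ht' : ε ≤ ‖zz t - 1‖ := ht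
        have h1 : ε / 2 ≤ ‖zz t - ww n‖ := by
          have e : zz t - 1 = (zz t - ww n) + ((ww n - 1 : ℝ) : ℂ) := by push_cast; ring
          have h2 : ‖zz t - 1‖ ≤ ‖zz t - ww n‖ + ‖((ww n - 1 : ℝ) : ℂ)‖ := by
            rw [e]; exact norm_add_le _ _
          rw [Complex.norm_real, Real.norm_eq_abs, abs_sub_comm,
            abs_of_pos (by linarith [ww_lt n])] at h2
          have h3 : 1 - ww n = (1 / 2) ^ (n + 1) := by unfold ww; ring
          linarith
        unfold PP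
        have h3 : 1 - ww n ^ 2 ≤ 2 * (1 / 2) ^ (n + 1) := by
          have e : 1 - ww n = (1 / 2) ^ (n + 1) := by unfold ww; ring
          have := ww_lt n
          have := ww_pos n
          nlinarith
        have h4 : (ε / 2) ^ 2 ≤ ‖zz t - ww n‖ ^ 2 := pow_le_pow_left₀ (by positivity) h1 2
        calc (1 - ww n ^ 2) / ‖zz t - ww n‖ ^ 2 ≤ (2 * (1 / 2) ^ (n + 1)) / (ε / 2) ^ 2 :=
              div_le_div₀ (by positivity) h3 (by positivity) h4
          _ = 8 / ε ^ 2 * (1 / 2) ^ (n + 1) := by field_simp; ring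
    _ = ENNReal.ofReal (8 / ε ^ 2 * (1 / 2) ^ (n + 1)) * volume {t | ε ≤ ‖zz t - 1‖} := by
        rw [lintegral_const, Measure.restrict_apply_univ]
    _ ≤ ENNReal.ofReal (8 / ε ^ 2 * (1 / 2) ^ (n + 1)) * 1 := by
        gcongr
        rw [← UnitAddCircle.measure_univ]
        exact measure_mono (Set.subset_univ _)
    _ = _ := mul_one _

lemma tendsto_nu_far {ε : ℝ} (hε : 0 < ε) :
    Tendsto (fun n => (nu n).real {t | ε ≤ ‖zz t - 1‖}) atTop (𝓝 0) := by
  have h1 : Tendsto (fun n : ℕ => (1 / 2 : ℝ) ^ (n + 1)) atTop (𝓝 0) :=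
    (tendsto_add_atTop_iff_nat 1).2 (tendsto_pow_atTop_nhds_zero_of_lt_one (by norm_num)
      (by norm_num))
  have h2 : Tendsto (fun n : ℕ => 8 / ε ^ 2 * (1 / 2 : ℝ) ^ (n + 1)) atTop (𝓝 0) := by
    simpa using h1.const_mul (8 / ε ^ 2)
  refine squeeze_zero' (Eventually.of_forall fun n => measureReal_nonneg) ?_ h2
  filter_upwards [h1.eventually (Iic_mem_nhds (half_pos hε))] with n hn
  exact real_nu_far hε n hn

/-- the pieces of the circle -/
def JJ (n : ℕ) : Set UnitAddCircle := {t | (1 / 2 : ℝ) ^ (n + 2) < ‖t‖ ∧ ‖t‖ ≤ (1 / 2) ^ (n + 1)}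

lemma meas_JJ (n : ℕ) : MeasurableSet (JJ n) :=
  (measurableSet_lt measurable_const measurable_norm).inter
    (measurableSet_le measurable_norm measurable_const)

lemma zz_sub_one_le (t : UnitAddCircle) : ‖zz t - 1‖ ≤ 7 * ‖t‖ := by
  obtain ⟨x0, rfl⟩ := QuotientAddGroup.mk_surjective t
  set x : ℝ := x0 - round x0 with hx
  have e1 : ((x0 : ℝ) : UnitAddCircle) = ((x : ℝ) : UnitAddCircle) := by
    rw [hx]
    have : ((round x0 : ℤ) : ℝ) = (round x0 : ℤ) • (1 : ℝ) := by simp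
    rw [AddCircle.coe_sub, this, AddCircle.coe_zsmul, AddCircle.coe_period]
    simp
  have e2 : ‖((x0 : ℝ) : UnitAddCircle)‖ = |x| := UnitAddCircle.norm_eq
  show ‖zz ((x0 : ℝ) : UnitAddCircle) - 1‖ ≤ 7 * ‖((x0 : ℝ) : UnitAddCircle)‖
  rw [e2, e1]
  unfold zz
  rw [fourier_coe_apply]
  have e3 : 2 * (Real.pi : ℂ) * Complex.I * ((1 : ℤ) : ℂ) * (x : ℂ) / ((1 : ℝ) : ℂ) =
      Complex.I * ((2 * Real.pi * x : ℝ) : ℂ) := by push_cast; ring
  rw [e3]
  refine Real.norm_exp_I_mul_ofReal_sub_one_le.trans ?_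
  rw [Real.norm_eq_abs, abs_mul, abs_mul, abs_of_pos Real.pi_pos, abs_of_pos (by norm_num : (0:ℝ) < 2)]
  have := Real.pi_lt_d2
  nlinarith [abs_nonneg x]

lemma vol_JJ (n : ℕ) : volume (JJ n) = ENNReal.ofReal ((1 / 2) ^ (n + 1)) := by
  have e : JJ n = Metric.closedBall (0 : UnitAddCircle) ((1 / 2) ^ (n + 1)) \
      Metric.closedBall (0 : UnitAddCircle) ((1 / 2) ^ (n + 2)) := by
    ext t
    simp only [JJ, Set.mem_ofPred_eq, Set.mem_sdiff, mem_closedBall_zero_iff, not_le]
    tauto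
  have h1 : (1 / 2 : ℝ) ^ (n + 1) ≤ 1 / 2 := by
    rw [pow_succ]
    have := pow_le_one₀ (n := n) (by norm_num : (0:ℝ) ≤ 1/2) (by norm_num)
    linarith
  have h2 : (1 / 2 : ℝ) ^ (n + 2) = (1 / 2) * (1 / 2) ^ (n + 1) := by rw [pow_succ]; ring
  have h0 : (0 : ℝ) < (1 / 2) ^ (n + 1) := by positivity
  rw [e, measure_sdiff (Metric.closedBall_subset_closedBall (by rw [h2]; linarith))
    Metric.isClosed_closedBall.measurableSet.nullMeasurableSet (measure_ne_top _ _),
    AddCircle.volume_closedBall, AddCircle.volume_closedBall, min_eq_right (by linarith),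
    min_eq_right (by rw [h2]; linarith), ← ENNReal.ofReal_sub _ (by positivity)]
  congr 1
  rw [h2]; ring

lemma real_nu_JJ (n : ℕ) : 1 / 64 ≤ (nu n).real (JJ n) := by
  have h0 : (0 : ℝ) < (1 / 2) ^ (n + 1) := by positivity
  have key : ENNReal.ofReal (1 / 64) ≤ nu n (JJ n) := by
    unfold nu
    rw [withDensity_apply _ (meas_JJ n)]
    calc ENNReal.ofReal (1 / 64)
        = ENNReal.ofReal (1 / (64 * (1 / 2) ^ (n + 1))) * volume (JJ n) := by
          rw [vol_JJ, ← ENNReal.ofReal_mul (by positivity)]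
          congr 1
          field_simp
      _ = ∫⁻ t in JJ n, ENNReal.ofReal (1 / (64 * (1 / 2) ^ (n + 1))) := by
          rw [lintegral_const, Measure.restrict_apply_univ]
      _ ≤ ∫⁻ t in JJ n, ENNReal.ofReal (PP (ww n) t) := by
          refine setLIntegral_mono (meas_dens n) fun t ht => ?_
          refine ENNReal.ofReal_le_ofReal ?_
          have h1 := zz_sub_one_le t
          have h2 : ‖zz t - ww n‖ ≤ 8 * (1 / 2) ^ (n + 1) := by
            have e : zz t - ww n = (zz t - 1) + ((1 - ww n : ℝ) : ℂ) := by push_cast; ring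
            rw [e]
            refine (norm_add_le _ _).trans ?_
            rw [Complex.norm_real, Real.norm_eq_abs, abs_of_pos (by linarith [ww_lt n])]
            have h3 : 1 - ww n = (1 / 2) ^ (n + 1) := by unfold ww; ring
            have h4 := ht.2
            linarith
          unfold PP
          have h3 : (1 / 2) ^ (n + 1) ≤ 1 - ww n ^ 2 := by
            have e : 1 - ww n = (1 / 2) ^ (n + 1) := by unfold ww; ring
            have := ww_lt n
            have := ww_pos n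
            nlinarith
          have h4 : ‖zz t - ww n‖ ^ 2 ≤ (8 * (1 / 2) ^ (n + 1)) ^ 2 :=
            pow_le_pow_left₀ (norm_nonneg _) h2 2
          have h5 := den_pos (ww_pos n) (ww_lt n) t
          calc 1 / (64 * (1 / 2) ^ (n + 1)) = (1 / 2) ^ (n + 1) / (8 * (1 / 2) ^ (n + 1)) ^ 2 := by
                rw [mul_pow]; field_simp; norm_num
            _ ≤ (1 - ww n ^ 2) / ‖zz t - ww n‖ ^ 2 :=
                div_le_div₀ (h0.le.trans h3) h3 (by positivity) h4
  rw [measureReal_def]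
  have := ENNReal.toReal_mono (measure_ne_top _ _) key
  rwa [ENNReal.toReal_ofReal (by norm_num)] at this

lemma zz_far {δ : ℝ} (hδ : 0 < δ) : ∃ η > 0, ∀ t : UnitAddCircle, δ ≤ ‖t‖ → η ≤ ‖zz t - 1‖ := by
  have hcl : IsClosed {t : UnitAddCircle | δ ≤ ‖t‖} := isClosed_le continuous_const continuous_norm
  rcases Set.eq_empty_or_nonempty {t : UnitAddCircle | δ ≤ ‖t‖} with h | h
  · exact ⟨1, one_pos, fun t ht => absurd (show t ∈ {t : UnitAddCircle | δ ≤ ‖t‖} from ht)
      (by rw [h]; exact Set.notMem_empty t)⟩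
  · obtain ⟨t0, ht0, hmin⟩ := hcl.isCompact.exists_isMinOn h
      (f := fun t : UnitAddCircle => ‖zz t - 1‖) (continuous_zz.sub continuous_const).norm.continuousOn
    refine ⟨‖zz t0 - 1‖, ?_, fun t ht => hmin ht⟩
    rw [gt_iff_lt, norm_pos_iff, sub_ne_zero]
    intro h1
    have h2 : toCircle t0 = toCircle (0 : UnitAddCircle) := by
      apply Circle.ext
      rw [toCircle_zero, Circle.coe_one, ← h1]
      unfold zz
      rw [fourier_one]
    have h3 := injective_toCircle one_ne_zero h2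
    have h4 : δ ≤ ‖t0‖ := ht0
    rw [h3, norm_zero] at h4
    linarith

end Pool.Agent.H261.AS
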