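import Pool.Agent.H261.AS.Char
import Pool.Agent.H261.AS.Dyn

set_option autoImplicit false
set_option linter.unusedSectionVars false
set_option linter.unusedVariables false

/-!
# Functions of `H^∞ + C` that are real on the support of a limit of Poisson measures
-/

namespace Pool.Agent.H261.AS

open MeasureTheory AddCircle Filter Topology
open scoped ENNReal ComplexConjugate

/-- membership in `H^∞ + C` -/
def InA (f : LL) : Prop :=
  ∃ h c : LL, (∀ n : ℤ, n < 0 → fourierCoeff (h : UnitAddCircle → ℂ) n = 0) ∧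
    (∃ g : C(UnitAddCircle, ℂ), (c : UnitAddCircle → ℂ) =ᵐ[volume] ⇑g) ∧ f = h + c

lemma asympA {f : LL} (hf : InA f) :
    Tendsto (fun n => ∫ t, f t * f t ∂nu n - (∫ t, f t ∂nu n) * (∫ t, f t ∂nu n))
      atTop (𝓝 0) := by
  obtain ⟨h, c, hh, ⟨g, hg⟩, rfl⟩ := hf
  have key := asymp (bddL h) (bddL h) hh hh g g
  refine key.congr fun n => ?_
  have e : ∀ᵐ t ∂nu n, (h + c : LL) t = h t + g t := by
    apply (nu_ac n).ae_le
    filter_upwards [hg, Lp.coeFn_add h c] with t h1 h2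
    rw [h2, Pi.add_apply, h1]
  have e1 : ∫ t, (h + c : LL) t ∂nu n = ∫ t, (h t + g t) ∂nu n := integral_congr_ae e
  have e2 : ∫ t, (h + c : LL) t * (h + c : LL) t ∂nu n =
      ∫ t, (h t + g t) * (h t + g t) ∂nu n := by
    refine integral_congr_ae ?_
    filter_upwards [e] with t ht
    rw [ht]
  rw [e1, e2]

lemma tendsto_toNat {p : Ultrafilter ℤ} (hp : ∀ N : ℤ, {a : ℤ | N ≤ a} ∈ p) :
    Tendsto Int.toNat p atTop := by
  rw [tendsto_atTop]
  intro N
  filter_upwards [hp N] with a ha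
  have : (N : ℤ) ≤ a := ha
  omega

/-- the Poisson integrals -/
noncomputable def EE (f : LL) (a : ℤ) : ℂ := ∫ t, f t ∂nu a.toNat

/-- the quadratic deviations -/
noncomputable def QQ (f : LL) (c : ℂ) (a : ℤ) : ℝ := ∫ t, ‖f t - c‖ ^ 2 ∂nu a.toNat

lemma QQ_nonneg (f : LL) (c : ℂ) (a : ℤ) : 0 ≤ QQ f c a :=
  integral_nonneg fun t => by positivity

lemma EE_lim (f : LL) (p : Ultrafilter ℤ) : ∃ c : ℂ, Tendsto (EE f) p (𝓝 c) := by
  obtain ⟨l, -, hl⟩ := (isCompact_closedBall (0 : ℂ) ‖f‖).ultrafilter_le_nhds (p.map (EE f)) (by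
    rw [le_principal_iff]
    show EE f ⁻¹' _ ∈ (p : Filter ℤ)
    refine Eventually.of_forall fun a => ?_
    show EE f a ∈ Metric.closedBall 0 ‖f‖
    rw [mem_closedBall_zero_iff]
    exact (bddL f).norm_int_le _)
  exact ⟨l, hl⟩

lemma int_sq_int (f : LL) (n : ℕ) : Integrable (fun t => (f t).im ^ 2) (nu n) := by
  have h : AEStronglyMeasurable (fun t => (f t).im ^ 2) (nu n) :=
    ((Complex.continuous_im.comp_aestronglyMeasurable (Lp.aestronglyMeasurable f)).pow 2).mono_ac
      (nu_ac n)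
  refine Integrable.of_bound h (‖f‖ ^ 2) ((nu_ac n).ae_le ?_)
  filter_upwards [(bddL f).bound] with t ht
  rw [Real.norm_eq_abs, abs_pow]
  exact pow_le_pow_left₀ (abs_nonneg _) ((Complex.abs_im_le_norm _).trans ht) 2

lemma int_sq_dev (f : LL) (c : ℂ) (n : ℕ) : Integrable (fun t => ‖f t - c‖ ^ 2) (nu n) := by
  have h : AEStronglyMeasurable (fun t => ‖f t - c‖ ^ 2) (nu n) :=
    ((((Lp.aestronglyMeasurable f).sub aestronglyMeasurable_const).norm).pow 2).mono_ac
      (nu_ac n)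
  refine Integrable.of_bound h ((‖f‖ + ‖c‖) ^ 2) ((nu_ac n).ae_le ?_)
  filter_upwards [(bddL f).bound] with t ht
  rw [Real.norm_eq_abs, abs_pow, abs_norm]
  exact pow_le_pow_left₀ (norm_nonneg _) ((norm_sub_le _ _).trans (by linarith)) 2

lemma meas_level (f : LL) (ε : ℝ) : MeasurableSet {t | ε ≤ |(f t).im|} :=
  measurableSet_le measurable_const
    ((Complex.continuous_im.measurable.comp (Lp.stronglyMeasurable f).measurable).abs)

lemma meas_level' (f : LL) (c : ℂ) (ε : ℝ) : MeasurableSet {t | ε ≤ ‖f t - c‖} :=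
  measurableSet_le measurable_const
    (((Lp.stronglyMeasurable f).measurable.sub measurable_const).norm)

lemma im_level {p : Ultrafilter ℤ} {f : LL} (hre : ∀ φ, Sp p φ → (φ f).im = 0) {ε : ℝ}
    (hε : 0 < ε) : Tendsto (mm {t | ε ≤ |(f t).im|}) p (𝓝 0) := by
  by_contra hcon
  obtain ⟨W, φ, hφ, hW1, hW2, hlim⟩ := exSp p _ (meas_level f ε) hcon
  have h1 : Tendsto (fun t => |(f t).im|) W (𝓝 |(φ f).im|) :=
    ((Complex.continuous_im.tendsto _).comp (hlim f)).abs
  have h2 : ε ≤ |(φ f).im| := ge_of_tendsto h1 hW1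
  rw [hre φ hφ, abs_zero] at h2
  linarith

lemma im_sq {p : Ultrafilter ℤ} {f : LL} (hre : ∀ φ, Sp p φ → (φ f).im = 0) :
    Tendsto (fun a : ℤ => ∫ t, (f t).im ^ 2 ∂nu a.toNat) p (𝓝 0) := by
  rw [Metric.tendsto_nhds]
  intro ε hε
  set δ := Real.sqrt (ε / 2) with hδ
  have hδ0 : 0 < δ := Real.sqrt_pos.2 (by positivity)
  have hδ2 : δ ^ 2 = ε / 2 := Real.sq_sqrt (by positivity)
  have h1 := im_level hre hδ0
  have h2 : Tendsto (fun a => ‖f‖ ^ 2 * mm {t | δ ≤ |(f t).im|} a) p (𝓝 0) := by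
    simpa using h1.const_mul (‖f‖ ^ 2)
  filter_upwards [h2.eventually (Iio_mem_nhds (half_pos hε))] with a ha
  have ha' : ‖f‖ ^ 2 * mm {t | δ ≤ |(f t).im|} a < ε / 2 := ha
  rw [Real.dist_eq, sub_zero, abs_of_nonneg (integral_nonneg fun t => by positivity)]
  have hS := meas_level f δ
  calc ∫ t, (f t).im ^ 2 ∂nu a.toNat
      ≤ ∫ t, (δ ^ 2 + Set.indicator {t | δ ≤ |(f t).im|} (fun _ => ‖f‖ ^ 2) t) ∂nu a.toNat := by
        refine integral_mono_ae (int_sq_int f _)
          ((integrable_const _).add ((integrable_const _).indicator hS)) ?_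
        filter_upwards [(nu_ac a.toNat).ae_le (bddL f).bound] with t ht
        by_cases hm : t ∈ {t | δ ≤ |(f t).im|}
        · rw [Set.indicator_of_mem hm]
          have : (f t).im ^ 2 ≤ ‖f‖ ^ 2 := by
            rw [← sq_abs]
            exact pow_le_pow_left₀ (abs_nonneg _) ((Complex.abs_im_le_norm _).trans ht) 2
          have := sq_nonneg δ
          linarith
        · rw [Set.indicator_of_notMem hm, add_zero]
          have hm' : |(f t).im| < δ := by
            by_contra h4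
            exact hm (not_lt.1 h4)
          rw [← sq_abs]
          exact pow_le_pow_left₀ (abs_nonneg _) hm'.le 2
    _ = δ ^ 2 + ‖f‖ ^ 2 * mm {t | δ ≤ |(f t).im|} a := by
        rw [integral_add (integrable_const _) ((integrable_const _).indicator hS),
          integral_indicator hS, setIntegral_const, integral_const]
        simp [mul_comm, mm]
    _ < ε := by linarith

lemma QQ_lim {p : Ultrafilter ℤ} (hp : ∀ N : ℤ, {a : ℤ | N ≤ a} ∈ p) {f : LL} (hf : InA f)
    (hre : ∀ φ, Sp p φ → (φ f).im = 0) {c : ℂ} (hc : Tendsto (EE f) p (𝓝 c)) :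
    Tendsto (QQ f c) p (𝓝 0) := by
  have h1 := (asympA hf).comp (tendsto_toNat hp)
  have h2 : Tendsto (fun a : ℤ => ∫ t, f t * f t ∂nu a.toNat) p (𝓝 (c * c)) := by
    have := h1.add (hc.mul hc)
    rw [zero_add] at this
    refine this.congr fun a => ?_
    simp only [Function.comp, EE]
    ring
  have h3 := im_sq hre
  have e : ∀ a : ℤ, QQ f c a = (∫ t, f t * f t ∂nu a.toNat).re +
      2 * ∫ t, (f t).im ^ 2 ∂nu a.toNat - 2 * (conj c * EE f a).re + ‖c‖ ^ 2 := by
    intro a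
    have i1 := ((bddL f).mul (bddL f)).integrable a.toNat
    have i2 := int_sq_int f a.toNat
    have i3 := ((bddL f).integrable a.toNat).const_mul (conj c)
    have j1 : Integrable (fun t => (f t * f t).re) (nu a.toNat) := i1.re
    have j2 : Integrable (fun t => 2 * (f t).im ^ 2) (nu a.toNat) := i2.const_mul 2
    have j3 : Integrable (fun t => 2 * (conj c * f t).re) (nu a.toNat) := i3.re.const_mul 2
    have j12 : Integrable (fun t => (f t * f t).re + 2 * (f t).im ^ 2) (nu a.toNat) := j1.add j2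
    have j123 : Integrable (fun t => (f t * f t).re + 2 * (f t).im ^ 2 -
      2 * (conj c * f t).re) (nu a.toNat) := j12.sub j3
    have k1 : (∫ t, f t * f t ∂nu a.toNat).re = ∫ t, (f t * f t).re ∂nu a.toNat :=
      (integral_re i1).symm
    have k3 : (conj c * EE f a).re = ∫ t, (conj c * f t).re ∂nu a.toNat := by
      unfold EE
      rw [← integral_const_mul]
      exact (integral_re i3).symm
    rw [k1, k3, ← integral_const_mul, ← integral_const_mul, ← integral_add j1 j2,
      ← integral_sub j12 j3]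
    have k4 : ‖c‖ ^ 2 = ∫ t : UnitAddCircle, ‖c‖ ^ 2 ∂nu a.toNat := by
      rw [integral_const]; simp
    rw [k4, ← integral_add j123 (integrable_const _)]
    unfold QQ
    refine integral_congr_ae (Eventually.of_forall fun t => ?_)
    show ‖f t - c‖ ^ 2 = _
    rw [← Complex.normSq_eq_norm_sq, ← Complex.normSq_eq_norm_sq, Complex.normSq_apply,
      Complex.normSq_apply]
    simp only [Complex.sub_re, Complex.sub_im, Complex.mul_re, Complex.conj_re, Complex.conj_im]
    ring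
  have h4 : Tendsto (QQ f c) p (𝓝 ((c * c).re + 2 * 0 - 2 * (conj c * c).re + ‖c‖ ^ 2)) := by
    have t1 := (Complex.continuous_re.tendsto _).comp h2
    have t3 := (Complex.continuous_re.tendsto _).comp (hc.const_mul (conj c))
    have := (((t1.add (h3.const_mul 2)).sub (t3.const_mul 2)).add
      (tendsto_const_nhds (x := ‖c‖ ^ 2)))
    refine this.congr fun a => ?_
    rw [e a]
    rfl
  have h5 : (c * c).re + 2 * 0 - 2 * (conj c * c).re + ‖c‖ ^ 2 = -2 * c.im ^ 2 := by
    rw [← Complex.normSq_eq_norm_sq, Complex.normSq_apply]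
    simp only [Complex.mul_re, Complex.conj_re, Complex.conj_im]
    ring
  rw [h5] at h4
  have h6 : 0 ≤ -2 * c.im ^ 2 := ge_of_tendsto' h4 fun a => QQ_nonneg f c a
  have h7 : -2 * c.im ^ 2 = 0 := le_antisymm (by nlinarith [sq_nonneg c.im]) h6
  rwa [h7] at h4

lemma dev_level {p : Ultrafilter ℤ} {f : LL} {c : ℂ} (hQ : Tendsto (QQ f c) p (𝓝 0)) {ε : ℝ}
    (hε : 0 < ε) : Tendsto (mm {t | ε ≤ ‖f t - c‖}) p (𝓝 0) := by
  have h1 : Tendsto (fun a => (ε ^ 2)⁻¹ * QQ f c a) p (𝓝 0) := by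
    simpa using hQ.const_mul (ε ^ 2)⁻¹
  refine squeeze_zero (fun a => measureReal_nonneg) (fun a => ?_) h1
  have hS := meas_level' f c ε
  have h2 : ε ^ 2 * mm {t | ε ≤ ‖f t - c‖} a ≤ QQ f c a := by
    have e : ε ^ 2 * mm {t | ε ≤ ‖f t - c‖} a =
        ∫ t, Set.indicator {t | ε ≤ ‖f t - c‖} (fun _ => ε ^ 2) t ∂nu a.toNat := by
      rw [integral_indicator hS, setIntegral_const]
      simp [mul_comm, mm]
    rw [e]
    refine integral_mono ((integrable_const _).indicator hS) (int_sq_dev f c _) ?_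
    intro t
    show Set.indicator {t | ε ≤ ‖f t - c‖} (fun _ => ε ^ 2) t ≤ ‖f t - c‖ ^ 2
    by_cases hm : t ∈ {t | ε ≤ ‖f t - c‖}
    · rw [Set.indicator_of_mem hm]
      exact pow_le_pow_left₀ hε.le hm 2
    · rw [Set.indicator_of_notMem hm]
      positivity
  rw [inv_mul_eq_div, le_div_iff₀ (by positivity)]
  linarith

/-- the value of a function on the support -/
lemma val {p : Ultrafilter ℤ} {f : LL} {c : ℂ} (hQ : Tendsto (QQ f c) p (𝓝 0)) {φ : LL → ℂ}
    (hφ : Sp p φ) : φ f = c := by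
  by_contra hne
  set δ := ‖φ f - c‖ with hδ
  have hδ0 : 0 < δ := norm_pos_iff.2 (sub_ne_zero.2 hne)
  set G := {t | δ / 2 ≤ ‖f t - c‖} with hG
  have hGm : MeasurableSet G := meas_level' f c (δ / 2)
  have h0 : φ (ind G hGm) = 0 := hφ.2 G hGm (dev_level hQ (half_pos hδ0))
  obtain ⟨e, he⟩ := exL (Bdd.const 1)
  have he1 := hφ.1.2.2 e he
  obtain ⟨u, hu⟩ := exL ((bddL (f - c • e)).mul (bddL (e - ind G hGm)))
  have h1 := hφ.1.2.1 (f - c • e) (e - ind G hGm) u hu
  rw [hφ.1.sub, hφ.1.sub, hφ.1.smul, he1, h0, sub_zero, mul_one, mul_one] at h1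
  have h2 : ‖φ u‖ ≤ δ / 2 := by
    refine hφ.1.norm_le ?_
    filter_upwards [hu, he, coe_ind G hGm, Lp.coeFn_sub f (c • e), Lp.coeFn_smul c e,
      Lp.coeFn_sub e (ind G hGm)] with t a1 a2 a3 a4 a5 a6
    rw [a1, a4, a6, Pi.sub_apply, Pi.sub_apply, a5, Pi.smul_apply, a2, a3, smul_eq_mul, mul_one]
    by_cases hm : t ∈ G
    · rw [Set.indicator_of_mem hm, sub_self, mul_zero, norm_zero]
      exact (half_pos hδ0).le
    · rw [Set.indicator_of_notMem hm, sub_zero, mul_one]
      have hm' : ‖f t - c‖ < δ / 2 := by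
        by_contra h4
        exact hm (not_lt.1 h4)
      exact hm'.le
  rw [h1, ← hδ] at h2
  linarith

end Pool.Agent.H261.AS
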