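import Pool.Agent.H261.AS.Val

set_option autoImplicit false
set_option linter.unusedSectionVars false
set_option linter.unusedVariables false

/-!
# Constancy of real functions of `H^∞ + C` on transitive systems
-/

namespace Pool.Agent.H261.AS

open MeasureTheory AddCircle Filter Topology
open scoped ENNReal ComplexConjugate

lemma dom4 {α : Type*} [MeasurableSpace α] {μ ν : Measure α}
    (h : ∀ s, MeasurableSet s → μ s ≤ 4 * ν s) {u : α → ℝ} (hu : ∀ t, 0 ≤ u t)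
    (hi : Integrable u ν) : ∫ t, u t ∂μ ≤ 4 * ∫ t, u t ∂ν := by
  have hle : μ ≤ (4 : ℝ≥0∞) • ν := by
    rw [Measure.le_iff]
    intro s hs
    rw [Measure.smul_apply, smul_eq_mul]
    exact h s hs
  have hi' : Integrable u ((4 : ℝ≥0∞) • ν) := hi.smul_measure (by norm_num)
  have := integral_mono_measure hle (Eventually.of_forall hu) hi'
  rw [integral_smul_measure] at this
  simpa using this

lemma ar1 {ε : ℝ} (hε : 0 < ε) (x : ℝ) : x ≤ ε / 2 + (2 / ε) * x ^ 2 := by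
  have : (2 / ε) * (x - ε / 4) ^ 2 ≥ 0 := by positivity
  have e : (2 / ε) * (x - ε / 4) ^ 2 = (2 / ε) * x ^ 2 - x + ε / 8 := by
    field_simp; ring
  linarith

lemma l1_le {α : Type*} [MeasurableSpace α] {μ : Measure α} [IsProbabilityMeasure μ] {f : α → ℂ}
    {c : ℂ} (i1 : Integrable f μ) (i2 : Integrable (fun t => ‖f t - c‖ ^ 2) μ) {ε : ℝ}
    (hε : 0 < ε) :
    ‖∫ t, f t ∂μ - c‖ ≤ ε / 2 + (2 / ε) * ∫ t, ‖f t - c‖ ^ 2 ∂μ := by
  have e1 : ∫ t, f t ∂μ - c = ∫ t, (f t - c) ∂μ := by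
    rw [integral_sub i1 (integrable_const _), integral_const]; simp
  rw [e1]
  refine (norm_integral_le_integral_norm _).trans ?_
  calc ∫ t, ‖f t - c‖ ∂μ
      ≤ ∫ t, (ε / 2 + (2 / ε) * ‖f t - c‖ ^ 2) ∂μ := by
        refine integral_mono (i1.sub (integrable_const _)).norm
          ((integrable_const _).add (i2.const_mul _)) fun t => ?_
        exact ar1 hε _
    _ = ε / 2 + (2 / ε) * ∫ t, ‖f t - c‖ ^ 2 ∂μ := by
        rw [integral_add (integrable_const _) (i2.const_mul _), integral_const,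
          integral_const_mul]
        simp

lemma QQ_succ {f : LL} {c : ℂ} {a : ℤ} (ha : 0 ≤ a) : QQ f c (a + 1) ≤ 4 * QQ f c a := by
  have hn : (a + 1).toNat = a.toNat + 1 := by omega
  unfold QQ
  rw [hn]
  exact dom4 (nu_succ_le a.toNat) (fun t => by positivity) (int_sq_dev f c a.toNat)

lemma EE_dev (f : LL) (c : ℂ) (a : ℤ) {ε : ℝ} (hε : 0 < ε) :
    ‖EE f a - c‖ ≤ ε / 2 + (2 / ε) * QQ f c a :=
  l1_le ((bddL f).integrable a.toNat) (int_sq_dev f c a.toNat) hε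

/-- invariance under the shift -/
lemma shift_lim {p : Ultrafilter ℤ} (hp : ∀ N : ℤ, {a : ℤ | N ≤ a} ∈ p) {f : LL} {c : ℂ}
    (hQ : Tendsto (QQ f c) p (𝓝 0)) : Tendsto (fun a => EE f (a + 1)) p (𝓝 c) := by
  rw [Metric.tendsto_nhds]
  intro ε hε
  have h3 : Tendsto (fun a => (2 / ε) * (4 * QQ f c a)) p (𝓝 0) := by
    have := (hQ.const_mul 4).const_mul (2 / ε)
    simpa using this
  filter_upwards [hp 0, h3.eventually (Iio_mem_nhds (half_pos hε))] with a ha1 ha2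
  have ha1' : 0 ≤ a := ha1
  have ha2' : (2 / ε) * (4 * QQ f c a) < ε / 2 := ha2
  rw [dist_eq_norm]
  have h5 := EE_dev f c (a + 1) hε
  have h6 : (2 / ε) * QQ f c (a + 1) ≤ (2 / ε) * (4 * QQ f c a) :=
    mul_le_mul_of_nonneg_left (QQ_succ ha1') (by positivity)
  linarith

section abs

variable {K : Set (Ultrafilter ℤ)} {E : ℤ → ℂ} {lim : Ultrafilter ℤ → ℂ}

lemma abs1 (hlim : ∀ p : Ultrafilter ℤ, Tendsto E p (𝓝 (lim p)))
    (hs : ∀ p ∈ K, Tendsto (fun a => E (a + 1)) p (𝓝 (lim p))) :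
    ∀ p ∈ K, lim (Dyn.sh 1 p) = lim p := by
  intro p hp
  have h2 : Tendsto E (Dyn.sh 1 p) (𝓝 (lim p)) := by
    have h3 : ((Dyn.sh 1 p : Ultrafilter ℤ) : Filter ℤ) = Filter.map (fun a => a + 1) p := rfl
    rw [h3, tendsto_map'_iff]
    exact hs p hp
  exact tendsto_nhds_unique (hlim _) h2

lemma abs2 (hKi : ∀ p ∈ K, ∀ n, Dyn.sh n p ∈ K) (hs1 : ∀ p ∈ K, lim (Dyn.sh 1 p) = lim p)
    (n : ℕ) : ∀ p ∈ K, lim (Dyn.sh (n : ℤ) p) = lim p := by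
  induction n with
  | zero =>
    intro p hp
    rw [Nat.cast_zero, Dyn.sh_zero]
  | succ n ih =>
    intro p hp
    have : Dyn.sh ((n + 1 : ℕ) : ℤ) p = Dyn.sh 1 (Dyn.sh (n : ℤ) p) := by
      rw [Dyn.sh_sh, Nat.cast_succ]
    rw [this, hs1 _ (hKi p hp n), ih p hp]

lemma abs3 (hKi : ∀ p ∈ K, ∀ n, Dyn.sh n p ∈ K) (hs1 : ∀ p ∈ K, lim (Dyn.sh 1 p) = lim p)
    (n : ℤ) : ∀ p ∈ K, lim (Dyn.sh n p) = lim p := by
  intro p hp
  rcases le_or_gt 0 n with hn | hn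
  · obtain ⟨m, rfl⟩ := Int.eq_ofNat_of_zero_le hn
    exact abs2 hKi hs1 m p hp
  · obtain ⟨m, hm⟩ := Int.eq_ofNat_of_zero_le (show 0 ≤ -n by omega)
    have h1 := abs2 hKi hs1 m (Dyn.sh n p) (hKi p hp n)
    rw [Dyn.sh_sh] at h1
    have h2 : n + (m : ℤ) = 0 := by omega
    rw [h2, Dyn.sh_zero] at h1
    exact h1.symm

lemma absA (hlim : ∀ p : Ultrafilter ℤ, Tendsto E p (𝓝 (lim p))) {δ : ℝ} (hδ0 : 0 < δ)
    (r : Ultrafilter ℤ) : {a | ‖E a - lim r‖ ≤ δ} ∈ r := by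
  filter_upwards [(hlim r).eventually (Metric.closedBall_mem_nhds (lim r) hδ0)] with a ha
  show ‖E a - lim r‖ ≤ δ
  have ha' : dist (E a) (lim r) ≤ δ := ha
  rwa [dist_eq_norm] at ha'

lemma absB (hlim : ∀ p : Ultrafilter ℤ, Tendsto E p (𝓝 (lim p))) {δ : ℝ}
    (r s : Ultrafilter ℤ) (hs : {a | ‖E a - lim r‖ ≤ δ} ∈ s) : ‖lim s - lim r‖ ≤ δ := by
  have h1 : Tendsto (fun a => ‖E a - lim r‖) s (𝓝 ‖lim s - lim r‖) :=
    ((hlim s).sub_const _).norm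
  exact le_of_tendsto h1 hs

lemma abs4 (hKi : ∀ p ∈ K, ∀ n, Dyn.sh n p ∈ K)
    (hKt : ∀ V O : Set (Ultrafilter ℤ), IsOpen V → IsOpen O → (V ∩ K).Nonempty →
      (O ∩ K).Nonempty → ∃ p ∈ O ∩ K, ∃ n, Dyn.sh n p ∈ V)
    (hlim : ∀ p : Ultrafilter ℤ, Tendsto E p (𝓝 (lim p)))
    (hs : ∀ p ∈ K, Tendsto (fun a => E (a + 1)) p (𝓝 (lim p))) :
    ∀ p ∈ K, ∀ q ∈ K, lim p = lim q := by
  intro p hp q hq
  by_contra hne
  obtain ⟨δ, hδ0, hδ⟩ : ∃ δ : ℝ, 0 < δ ∧ ‖lim p - lim q‖ = 3 * δ := by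
    have := norm_pos_iff.2 (sub_ne_zero.2 hne)
    exact ⟨‖lim p - lim q‖ / 3, by positivity, by ring⟩
  have hV : IsOpen {s : Ultrafilter ℤ | {a | ‖E a - lim p‖ ≤ δ} ∈ s} :=
    ultrafilter_isOpen_basic _
  have hO : IsOpen {s : Ultrafilter ℤ | {a | ‖E a - lim q‖ ≤ δ} ∈ s} :=
    ultrafilter_isOpen_basic _
  obtain ⟨r, ⟨hr1, hr2⟩, n, hn⟩ := hKt _ _ hV hO ⟨p, absA hlim hδ0 p, hp⟩
    ⟨q, absA hlim hδ0 q, hq⟩
  have h1 := absB hlim q r hr1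
  have h2 := absB hlim p (Dyn.sh n r) hn
  rw [abs3 hKi (abs1 hlim hs) n r hr2] at h2
  have h3 : ‖lim p - lim q‖ ≤ δ + δ := by
    have e : lim p - lim q = (lim r - lim q) - (lim r - lim p) := by ring
    rw [e]
    exact (norm_sub_le _ _).trans (add_le_add h1 h2)
  linarith

end abs

/-- the values on a transitive system are constant -/
lemma const_val {K : Set (Ultrafilter ℤ)} (hK0 : ∀ p ∈ K, ∀ N : ℤ, {a : ℤ | N ≤ a} ∈ p)
    (hKi : ∀ p ∈ K, ∀ n, Dyn.sh n p ∈ K)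
    (hKt : ∀ V O : Set (Ultrafilter ℤ), IsOpen V → IsOpen O → (V ∩ K).Nonempty →
      (O ∩ K).Nonempty → ∃ p ∈ O ∩ K, ∃ n, Dyn.sh n p ∈ V)
    {f : LL} (hf : InA f) (hre : ∀ p ∈ K, ∀ φ, Sp p φ → (φ f).im = 0) :
    ∃ c : ℂ, ∀ p ∈ K, ∀ φ, Sp p φ → φ f = c := by
  choose lim hlim using EE_lim f
  have hQ : ∀ p ∈ K, Tendsto (QQ f (lim p)) p (𝓝 0) := fun p hp =>
    QQ_lim (hK0 p hp) hf (hre p hp) (hlim p)
  have hconst := abs4 hKi hKt hlim (fun p hp => shift_lim (hK0 p hp) (hQ p hp))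
  rcases K.eq_empty_or_nonempty with h | ⟨p0, hp0⟩
  · exact ⟨0, fun p hp => by rw [h] at hp; exact absurd hp (Set.notMem_empty p)⟩
  · refine ⟨lim p0, fun p hp φ hφ => ?_⟩
    rw [val (hQ p hp) hφ]
    exact hconst p hp p0 hp0

end Pool.Agent.H261.AS
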